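import Mathlib

/-!
Two-colourings that are reversed by involutions.
-/

namespace Pool.Agent.H151.TW

universe u

/-- A relation-preserving involution without fixed classes has a colouring which it reverses. -/
theorem exists_colouring {V : Type u} (s : Setoid V) (z : V → V)
    (hz : ∀ x, z (z x) = x) (hs : ∀ x y, s x y → s (z x) (z y)) (T : Set V)
    (hT : ∀ x ∈ T, ¬ s x (z x)) :
    ∃ c : V → Bool, (∀ x y, s x y → c x = c y) ∧ ∀ x ∈ T, c (z x) = !c x := by
  classical
  let _ : LinearOrder (Quotient s) := linearOrderOfSTO (WellOrderingRel : Quotient s → Quotient s → Prop)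
  let q : V → Quotient s := fun x => Quotient.mk s x
  refine ⟨fun x => decide (q x < q (z x)), ?_, ?_⟩
  · intro x y h
    have h1 : q x = q y := Quotient.sound h
    have h2 : q (z x) = q (z y) := Quotient.sound (hs x y h)
    simp only [h1, h2]
  · intro x hx
    have hne : q x ≠ q (z x) := fun h => hT x hx (Quotient.exact h)
    simp only [hz]
    rcases lt_or_gt_of_ne hne with h | h
    · rw [decide_eq_true h, decide_eq_false (not_lt.2 h.le)]; rfl
    · rw [decide_eq_true h, decide_eq_false (not_lt.2 h.le)]; rfl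

/-- Two involutions without fixed points on an invariant set `T` have a common
colouring of `T` which both reverse. -/
theorem dihedral_colouring {V : Type u} (μ ι : Equiv.Perm V) (hμ : ∀ x, μ (μ x) = x)
    (hι : ∀ x, ι (ι x) = x) (T : Set V) (hμT : ∀ x ∈ T, μ x ∈ T) (hιT : ∀ x ∈ T, ι x ∈ T)
    (hμ1 : ∀ x ∈ T, μ x ≠ x) (hι1 : ∀ x ∈ T, ι x ≠ x) :
    ∃ c : V → Bool, ∀ x ∈ T, c (μ x) = !c x ∧ c (ι x) = !c x := by
  classical
  let ρ : Equiv.Perm V := ι * μ
  have hμμ : μ * μ = 1 := Equiv.ext hμ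
  have hιι : ι * ι = 1 := Equiv.ext hι
  have hμi : μ⁻¹ = μ := inv_eq_of_mul_eq_one_left hμμ
  have hιi : ι⁻¹ = ι := inv_eq_of_mul_eq_one_left hιι
  have hconj : μ * ρ * μ⁻¹ = ρ⁻¹ := by
    change μ * (ι * μ) * μ⁻¹ = (ι * μ)⁻¹
    rw [mul_inv_rev, hμi, hιi]
    rw [mul_assoc, mul_assoc, hμμ, mul_one]
  have hconjk : ∀ k : ℤ, μ * ρ ^ k = ρ ^ (-k) * μ := by
    intro k
    have h1 : (μ * ρ * μ⁻¹) ^ k = μ * ρ ^ k * μ⁻¹ := conj_zpow
    rw [hconj] at h1
    rw [zpow_neg, ← inv_zpow, h1, inv_mul_cancel_right]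
  have happ : ∀ (k : ℤ) x, μ ((ρ ^ k) x) = (ρ ^ (-k)) (μ x) := by
    intro k x
    have := congrArg (fun f : Equiv.Perm V => f x) (hconjk k)
    simpa using this
  have hρT : ∀ x, x ∈ T ↔ ρ x ∈ T := by
    intro x
    constructor
    · intro h; exact hιT _ (hμT _ h)
    · intro h
      have h1 : μ (ι (ρ x)) = x := by
        change μ (ι (ι (μ x))) = x
        rw [hι, hμ]
      rw [← h1]
      exact hμT _ (hιT _ h)
  have hρkT : ∀ (k : ℤ) x, x ∈ T → (ρ ^ k) x ∈ T := by
    intro k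
    induction k using Int.induction_on with
    | zero => intro x hx; simpa using hx
    | succ n ih =>
      intro x hx
      rw [zpow_add_one, Equiv.Perm.mul_apply]
      exact ih _ ((hρT x).1 hx)
    | pred n ih =>
      intro x hx
      rw [zpow_sub_one, Equiv.Perm.mul_apply]
      apply ih
      rw [hρT]
      have : ρ (ρ⁻¹ x) = x := by simp
      rw [this]; exact hx
  have hzadd : ∀ (a b : ℤ) x, (ρ ^ (a + b)) x = (ρ ^ a) ((ρ ^ b) x) := by
    intro a b x
    rw [zpow_add, Equiv.Perm.mul_apply]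
  have hno : ∀ x ∈ T, ¬ Equiv.Perm.SameCycle ρ x (μ x) := by
    rintro x hx ⟨k, hk⟩
    rcases Int.even_or_odd' k with ⟨j, hj | hj⟩
    · -- `k = 2 j`
      set y := (ρ ^ j) x with hy
      have hyT : y ∈ T := hρkT j x hx
      have h1 : x = (ρ ^ (-j)) y := by
        rw [hy, ← hzadd]; simp
      have h2 : (ρ ^ j) y = μ x := by
        rw [hy, ← hzadd, ← two_mul, ← hj, hk]
      have h3 : μ x = (ρ ^ j) (μ y) := by
        rw [h1, happ, neg_neg]
      rw [h3] at h2
      have h4 := (ρ ^ j).injective h2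
      exact hμ1 y hyT h4.symm
    · set y := (ρ ^ j) x with hy
      have hyT : y ∈ T := hρkT j x hx
      have h1 : x = (ρ ^ (-j)) y := by
        rw [hy, ← hzadd]; simp
      have h2 : (ρ ^ (j + 1)) y = μ x := by
        rw [hy, ← hzadd, ← hk, hj]
        congr 2; ring
      have h3 : μ x = (ρ ^ j) (μ y) := by
        rw [h1, happ, neg_neg]
      rw [h3, hzadd] at h2
      have h4 := (ρ ^ j).injective h2
      have h5 : (ρ ^ (1 : ℤ)) y = ι (μ y) := by rw [zpow_one]; rfl
      rw [h5] at h4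
      exact hι1 _ (hμT _ hyT) h4
  obtain ⟨c, hc1, hc2⟩ := exists_colouring (Equiv.Perm.SameCycle.setoid ρ) μ hμ (by
    rintro x y ⟨k, hk⟩
    refine ⟨-k, ?_⟩
    rw [← happ, hk]) T hno
  refine ⟨c, fun x hx => ⟨hc2 x hx, ?_⟩⟩
  have h1 : c (μ x) = c (ρ (μ x)) := hc1 _ _ ⟨1, by rw [zpow_one]⟩
  have h2 : ρ (μ x) = ι x := by change ι (μ (μ x)) = ι x; rw [hμ]
  rw [← h2, ← h1, hc2 x hx]

end Pool.Agent.H151.TW
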