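import Pool.Agent.H151.TW.TN
import Pool.Graph.R_pool_sql_team_seeded_63374d34.N342.CayB

/-!
Crossings of a union of cycles inside a coset of `⟨b₁, b₂⟩`.
-/

namespace Pool.Agent.H151.TW

universe u

open Classical in
/-- sums over a set closed under right multiplication by `b`, by means of a transversal -/
theorem sum3 {G : Type u} [Group G] [Fintype G] {b : G} (hb : orderOf b = 3)
    {N : Set G} (hN : ∀ x, ∃! n, n ∈ N ∧ x⁻¹ * n ∈ Subgroup.zpowers b) (P : Finset G)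
    (hP : ∀ x ∈ P, x * b ∈ P) (F : G → ℕ) :
    ∑ x ∈ P, F x = ∑ m ∈ P.filter (fun m => m ∈ N), (F m + F (m * b) + F (m * b⁻¹)) := by
  obtain ⟨h1, h2, h3, h4⟩ := order3 hb
  obtain ⟨ν, μ, a1, a2, -, -, a5, a6⟩ := exists_flip hb N hN
  have hP' : ∀ x ∈ P, x * b⁻¹ ∈ P := by
    intro x hx
    rw [← h2, ← mul_assoc]
    exact hP _ (hP _ hx)
  have hνn : ∀ n ∈ N, ν n = n := by
    intro n hn
    exact (hN n).unique ⟨a1 n, a2 n⟩ ⟨hn, by rw [inv_mul_cancel]; exact Subgroup.one_mem _⟩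
  have hmaps : ∀ x ∈ P, ν x ∈ P.filter (fun m => m ∈ N) := by
    intro x hx
    rw [Finset.mem_filter]
    refine ⟨?_, a1 x⟩
    by_cases hxN : x ∈ N
    · rw [hνn x hxN]; exact hx
    · rcases (a6 x hxN).1 with h | h
      · have := hP' x hx
        rw [h, mul_inv_cancel_right] at this
        exact this
      · have := hP x hx
        rw [h, inv_mul_cancel_right] at this
        exact this
  rw [← Finset.sum_fiberwise_of_maps_to hmaps F]
  apply Finset.sum_congr rfl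
  intro m hm
  rw [Finset.mem_filter] at hm
  obtain ⟨hmP, hmN⟩ := hm
  obtain ⟨d1, d2, d3, d4, d5, d6⟩ := a5 m hmN
  have e : P.filter (fun x => ν x = m) = {m, m * b, m * b⁻¹} := by
    ext x
    rw [Finset.mem_filter, Finset.mem_insert, Finset.mem_insert, Finset.mem_singleton]
    constructor
    · rintro ⟨hx, hx2⟩
      by_cases hxN : x ∈ N
      · left; rw [hνn x hxN] at hx2; exact hx2
      · right
        rw [← hx2]
        exact (a6 x hxN).1
    · rintro (h | h | h)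
      · rw [h]; exact ⟨hmP, hνn m hmN⟩
      · rw [h]; exact ⟨hP _ hmP, d5⟩
      · rw [h]; exact ⟨hP' _ hmP, d6⟩
  rw [e, Finset.sum_insert, Finset.sum_insert, Finset.sum_singleton, add_assoc]
  · rw [Finset.mem_singleton]
    intro h
    exact h4 (mul_left_cancel h).symm
  · rw [Finset.mem_insert, Finset.mem_singleton]
    rintro (h | h)
    · exact h1 (mul_eq_left.1 h.symm)
    · exact h1 (inv_eq_one.1 (mul_eq_left.1 h.symm))

section facts

variable {G : Type u} [Group G] {b₁ b₂ : G} {N : Set G} {σ : Equiv.Perm G}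

theorem TN.cases (h1 : orderOf b₁ = 3) (h : TN b₁ b₂ N σ) (x : G) :
    ∃ n ∈ N, ∃ e, (e = b₁ ∨ e = b₁⁻¹) ∧ σ n = n * e ∧ σ (n * e⁻¹) = n ∧
    (σ (n * e) = n * e * b₂ ∨ σ (n * e) = n * e * b₂⁻¹) ∧ (x = n ∨ x = n * e ∨ x = n * e⁻¹) := by
  obtain ⟨n, ⟨hn, hx⟩, -⟩ := h.t1 x
  obtain ⟨e, he, e1, e2, e3⟩ := h.atN n hn
  refine ⟨n, hn, e, he, e1, e2, e3, ?_⟩
  rcases (mem_zp3 h1 _).1 hx with h | h | h
  · left
    rw [inv_mul_eq_one] at h; exact h
  · -- `x = n b₁⁻¹`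
    have hx' : x = n * b₁⁻¹ := by
      rw [eq_mul_inv_iff_mul_eq, ← h, mul_inv_cancel_left]
    rcases he with rfl | rfl
    · right; right; exact hx'
    · right; left; exact hx'
  · have hx' : x = n * b₁ := by
      have h5 : (x⁻¹ * n)⁻¹ = b₁ := by rw [h, inv_inv]
      rw [mul_inv_rev, inv_inv] at h5
      rw [← h5, mul_inv_cancel_left]
    rcases he with rfl | rfl
    · right; left; exact hx'
    · right; right; rw [inv_inv]; exact hx'

omit [Group G] in
theorem same_apply (x : G) : σ.SameCycle x (σ x) :=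
  Equiv.Perm.sameCycle_apply_right.2 (Equiv.Perm.SameCycle.refl _ _)

theorem TN.same_coset (h1 : orderOf b₁ = 3) (h : TN b₁ b₂ N σ) (x y : G)
    (hxy : x⁻¹ * y ∈ Subgroup.zpowers b₁) : σ.SameCycle x y := by
  obtain ⟨n, hn, e, he, e1, e2, e3, hx⟩ := h.cases h1 x
  obtain ⟨n', hn', e', he', e1', e2', e3', hy⟩ := h.cases h1 y
  have heZ : e ∈ Subgroup.zpowers b₁ := by
    rcases he with rfl | rfl
    · exact Subgroup.mem_zpowers _
    · exact Subgroup.inv_mem _ (Subgroup.mem_zpowers _)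
  have heZ' : e' ∈ Subgroup.zpowers b₁ := by
    rcases he' with rfl | rfl
    · exact Subgroup.mem_zpowers _
    · exact Subgroup.inv_mem _ (Subgroup.mem_zpowers _)
  have hxn : σ.SameCycle n x ∧ x⁻¹ * n ∈ Subgroup.zpowers b₁ := by
    rcases hx with rfl | rfl | rfl
    · exact ⟨Equiv.Perm.SameCycle.refl _ _, by rw [inv_mul_cancel]; exact Subgroup.one_mem _⟩
    · refine ⟨by rw [← e1]; exact same_apply _, ?_⟩
      rw [mul_inv_rev, inv_mul_cancel_right]; exact Subgroup.inv_mem _ heZ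
    · refine ⟨?_, ?_⟩
      · have := same_apply (σ := σ) (n * e⁻¹)
        rw [e2] at this
        exact this.symm
      · rw [mul_inv_rev, inv_inv, inv_mul_cancel_right]; exact heZ
  have hyn : σ.SameCycle n' y ∧ y⁻¹ * n' ∈ Subgroup.zpowers b₁ := by
    rcases hy with rfl | rfl | rfl
    · exact ⟨Equiv.Perm.SameCycle.refl _ _, by rw [inv_mul_cancel]; exact Subgroup.one_mem _⟩
    · refine ⟨by rw [← e1']; exact same_apply _, ?_⟩
      rw [mul_inv_rev, inv_mul_cancel_right]; exact Subgroup.inv_mem _ heZ'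
    · refine ⟨?_, ?_⟩
      · have := same_apply (σ := σ) (n' * e'⁻¹)
        rw [e2'] at this
        exact this.symm
      · rw [mul_inv_rev, inv_inv, inv_mul_cancel_right]; exact heZ'
  have hnn : n = n' := by
    refine (h.t1 x).unique ⟨hn, hxn.2⟩ ⟨hn', ?_⟩
    have : x⁻¹ * n' = (x⁻¹ * y) * (y⁻¹ * n') := by group
    rw [this]
    exact Subgroup.mul_mem _ hxy hyn.2
  rw [← hnn] at hyn
  exact hxn.1.symm.trans hyn.1

theorem TN.step (h1 : orderOf b₁ = 3) (h : TN b₁ b₂ N σ) (x : G) :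
    x⁻¹ * σ x = b₁ ∨ x⁻¹ * σ x = b₁⁻¹ ∨ x⁻¹ * σ x = b₂ ∨ x⁻¹ * σ x = b₂⁻¹ := by
  obtain ⟨n, hn, e, he, e1, e2, e3, hx⟩ := h.cases h1 x
  rcases hx with rfl | rfl | rfl
  · rw [e1, inv_mul_cancel_left]
    rcases he with h | h
    · exact Or.inl h
    · exact Or.inr (Or.inl h)
  · rcases e3 with h | h
    · rw [h, inv_mul_cancel_left]; right; right; left; rfl
    · rw [h, inv_mul_cancel_left]; right; right; right; rfl
  · rw [e2, mul_inv_rev, inv_inv, inv_mul_cancel_right]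
    rcases he with h | h
    · exact Or.inl h
    · exact Or.inr (Or.inl h)

theorem TN.step2 (h1 : orderOf b₁ = 3) (h12 : b₂ ∉ Subgroup.zpowers b₁) (h : TN b₁ b₂ N σ)
    (x : G) : σ (σ x) ≠ x := by
  obtain ⟨b1, b2, b3, b4⟩ := order3 h1
  obtain ⟨n, hn, e, he, e1, e2, e3, hx⟩ := h.cases h1 x
  have heZ : e ∈ Subgroup.zpowers b₁ := by
    rcases he with rfl | rfl
    · exact Subgroup.mem_zpowers _
    · exact Subgroup.inv_mem _ (Subgroup.mem_zpowers _)
  have hee : e * e ≠ 1 := by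
    rcases he with rfl | rfl
    · rw [b2]; exact inv_ne_one.2 b1
    · rw [b3]; exact b1
  have hb2 : ∀ y, σ y = y * b₂ ∨ σ y = y * b₂⁻¹ → y⁻¹ * σ y ∉ Subgroup.zpowers b₁ := by
    rintro y (h | h)
    · rw [h, inv_mul_cancel_left]; exact h12
    · rw [h, inv_mul_cancel_left]; exact fun h' => h12 (inv_mem_iff.1 h')
  have hb2n := hb2 _ e3
  rcases hx with rfl | rfl | rfl
  · intro h'
    rw [e1] at h'
    apply hb2n
    rw [h', mul_inv_rev, inv_mul_cancel_right]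
    exact Subgroup.inv_mem _ heZ
  · intro h'
    -- `σ x` is in the coset of `x`?
    apply hb2n
    set y := σ (n * e) with hy
    -- `σ y = n e`, `σ n = n e`
    have h5 : y = n := σ.injective (by rw [h', e1])
    rw [h5, mul_inv_rev, inv_mul_cancel_right]
    exact Subgroup.inv_mem _ heZ
  · rw [e2, e1]
    intro h'
    have h5 := mul_left_cancel h'
    apply hee
    rw [h5]; exact inv_mul_cancel _ |> fun h => by
      have : e = e⁻¹ := h5
      rw [← this] at h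
      rw [← this]; exact h

theorem TN.far (h1 : orderOf b₁ = 3) (h12 : b₂ ∉ Subgroup.zpowers b₁) (h : TN b₁ b₂ N σ)
    (x : G) : ∃ y, σ.SameCycle x y ∧ x⁻¹ * y ∉ Subgroup.zpowers b₁ ∧
      x⁻¹ * y ∈ Subgroup.closure ({b₁, b₂} : Set G) := by
  obtain ⟨n, hn, e, he, e1, e2, e3, hx⟩ := h.cases h1 x
  have hb1K : b₁ ∈ Subgroup.closure ({b₁, b₂} : Set G) := Subgroup.subset_closure (Or.inl rfl)
  have hb2K : b₂ ∈ Subgroup.closure ({b₁, b₂} : Set G) := Subgroup.subset_closure (Or.inr rfl)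
  have heZ : e ∈ Subgroup.zpowers b₁ := by
    rcases he with rfl | rfl
    · exact Subgroup.mem_zpowers _
    · exact Subgroup.inv_mem _ (Subgroup.mem_zpowers _)
  have hZK : Subgroup.zpowers b₁ ≤ Subgroup.closure ({b₁, b₂} : Set G) := by
    rw [Subgroup.zpowers_le]; exact hb1K
  have hxz : x⁻¹ * (n * e) ∈ Subgroup.zpowers b₁ := by
    rcases hx with rfl | rfl | rfl
    · rw [inv_mul_cancel_left]; exact heZ
    · rw [inv_mul_cancel]; exact Subgroup.one_mem _
    · have : (n * e⁻¹)⁻¹ * (n * e) = e * e := by group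
      rw [this]; exact Subgroup.mul_mem _ heZ heZ
  refine ⟨σ (n * e), (h.same_coset h1 _ _ hxz).trans (same_apply _), ?_, ?_⟩
  · intro h'
    have h2 : (n * e)⁻¹ * σ (n * e) ∈ Subgroup.zpowers b₁ := by
      have : (n * e)⁻¹ * σ (n * e) = (x⁻¹ * (n * e))⁻¹ * (x⁻¹ * σ (n * e)) := by group
      rw [this]
      exact Subgroup.mul_mem _ (Subgroup.inv_mem _ hxz) h'
    rcases e3 with h3 | h3
    · rw [h3, inv_mul_cancel_left] at h2; exact h12 h2
    · rw [h3, inv_mul_cancel_left] at h2; exact h12 (inv_mem_iff.1 h2)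
  · have h2 : (n * e)⁻¹ * σ (n * e) ∈ Subgroup.closure ({b₁, b₂} : Set G) := by
      rcases e3 with h3 | h3
      · rw [h3, inv_mul_cancel_left]; exact hb2K
      · rw [h3, inv_mul_cancel_left]; exact Subgroup.inv_mem _ hb2K
    have : x⁻¹ * σ (n * e) = (x⁻¹ * (n * e)) * ((n * e)⁻¹ * σ (n * e)) := by group
    rw [this]
    exact Subgroup.mul_mem _ (hZK hxz) h2

end facts

open Classical in
/-- the number of exits by `b₂` inside a coset of `⟨b₁, b₂⟩` -/
theorem exits {G : Type u} [Group G] [Fintype G] {b₁ b₂ : G} (h1 : orderOf b₁ = 3)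
    (h12 : b₂ ∉ Subgroup.zpowers b₁) (X : Set G) (hX : ∀ x ∈ X, x * b₁ ∈ X) (g : G)
    (hne : ∃ x ∈ X, g⁻¹ * x ∈ Subgroup.closure ({b₁, b₂} : Set G))
    (hne' : ∃ x, x ∉ X ∧ g⁻¹ * x ∈ Subgroup.closure ({b₁, b₂} : Set G)) :
    3 ≤ (Finset.univ.filter fun x : G => g⁻¹ * x ∈ Subgroup.closure ({b₁, b₂} : Set G) ∧
      x ∈ X ∧ x * b₂ ∉ X).card := by
  obtain ⟨o1, o2, o3, o4⟩ := order3 h1
  set K : Subgroup G := Subgroup.closure ({b₁, b₂} : Set G) with hK
  have hb1K : b₁ ∈ K := Subgroup.subset_closure (Or.inl rfl)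
  have hb2K : b₂ ∈ K := Subgroup.subset_closure (Or.inr rfl)
  have : Fintype K := Fintype.ofFinite K
  let β₁ : K := ⟨b₁, hb1K⟩
  let β₂ : K := ⟨b₂, hb2K⟩
  have hord : orderOf β₁ = 3 := by rw [← h1]; exact Subgroup.orderOf_mk b₁ hb1K
  have hmap : (Subgroup.zpowers β₁).map K.subtype = Subgroup.zpowers b₁ := by
    rw [MonoidHom.map_zpowers]; rfl
  have hβ : β₂ ∉ Subgroup.zpowers β₁ := by
    intro h
    apply h12
    rw [← hmap]
    exact ⟨β₂, h, rfl⟩
  have hcl : Subgroup.closure ((Subgroup.zpowers β₁ : Set K) ∪ {β₂}) = ⊤ := by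
    have h5 : Subgroup.closure ({β₁, β₂} : Set K) = ⊤ := by
      have h6 := Subgroup.closure_closure_coe_preimage (k := ({b₁, b₂} : Set G))
      rw [← h6]
      apply le_antisymm
      · apply Subgroup.closure_mono
        rintro x (rfl | rfl)
        · exact Or.inl rfl
        · exact Or.inr rfl
      · apply Subgroup.closure_mono
        rintro ⟨x, hx⟩ (h | h)
        · left
          exact Subtype.ext h
        · right
          exact Subtype.ext h
    rw [eq_top_iff, ← h5]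
    apply Subgroup.closure_mono
    rintro x (rfl | rfl)
    · left; exact Subgroup.mem_zpowers _
    · right; rfl
  have hnt : Subgroup.zpowers β₁ ≠ ⊤ := by
    intro h
    apply hβ
    rw [h]; exact Subgroup.mem_top _
  obtain ⟨k, c, w, hc, hw0, hw1, hcut⟩ :=
    Pool.Agent.N342.CayB.cut (Subgroup.zpowers β₁) {β₂} hcl hnt
  let X' : Set K := {x | g * (x : G) ∈ X}
  have hcard : Nat.card (Subgroup.zpowers β₁) = 3 := by rw [Nat.card_zpowers, hord]
  have hX' : ∀ x ∈ X, x * b₁⁻¹ ∈ X := by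
    intro x hx
    rw [← o2, ← mul_assoc]
    exact hX _ (hX _ hx)
  have h5 := hcut X' ?_ ?_ ?_
  · rw [hcard] at h5
    have h6 : ∀ i, c i = β₂ := fun i => hc i
    have h7 : ∑ i, w i * (Nat.card {x : K // x ∈ X' ∧ x * c i ∉ X'} : ℝ) =
        (Nat.card {x : K // x ∈ X' ∧ x * β₂ ∉ X'} : ℝ) := by
      have : ∀ i, w i * (Nat.card {x : K // x ∈ X' ∧ x * c i ∉ X'} : ℝ) =
          w i * (Nat.card {x : K // x ∈ X' ∧ x * β₂ ∉ X'} : ℝ) := fun i => by rw [h6 i]
      rw [Finset.sum_congr rfl fun i _ => this i, ← Finset.sum_mul, hw1, one_mul]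
    rw [h7] at h5
    have h8 : 3 ≤ Nat.card {x : K // x ∈ X' ∧ x * β₂ ∉ X'} := by exact_mod_cast h5
    refine h8.trans ?_
    rw [Nat.card_eq_fintype_card, Fintype.card_subtype]
    apply Finset.card_le_card_of_injOn (fun x : K => g * (x : G))
    · intro x hx
      rw [Finset.mem_coe, Finset.mem_filter] at hx ⊢
      refine ⟨Finset.mem_univ _, ?_, hx.2.1, ?_⟩
      · rw [inv_mul_cancel_left]; exact x.2
      · have := hx.2.2
        rw [mul_assoc]
        exact this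
    · intro x _ y _ hxy
      exact Subtype.ext (mul_left_cancel hxy)
  · intro x hx y hy
    obtain ⟨j, hj⟩ := Subgroup.mem_zpowers_iff.1 hy
    have hxX : g * (x : G) ∈ X := hx
    change g * ((x * y : K) : G) ∈ X
    rw [Subgroup.coe_mul, ← mul_assoc]
    have hyz : (y : G) ∈ Subgroup.zpowers b₁ := by
      rw [← hmap]; exact ⟨y, hy, rfl⟩
    rcases (mem_zp3 h1 _).1 hyz with h | h | h
    · rw [h, mul_one]; exact hxX
    · rw [h]; exact hX _ hxX
    · rw [h]; exact hX' _ hxX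
  · obtain ⟨x, hx, hxK⟩ := hne
    refine ⟨⟨g⁻¹ * x, hxK⟩, ?_⟩
    change g * (g⁻¹ * x) ∈ X
    rw [mul_inv_cancel_left]; exact hx
  · intro h
    obtain ⟨x, hx, hxK⟩ := hne'
    apply hx
    have : (⟨g⁻¹ * x, hxK⟩ : K) ∈ X' := by rw [h]; exact Set.mem_univ _
    change g * (g⁻¹ * x) ∈ X at this
    rw [mul_inv_cancel_left] at this
    exact this

open Classical in
/-- a union of cycles which meets a coset of `⟨b₁, b₂⟩` but does not contain it separates
at least four elements `m` of `N` in this coset from `m b₂` -/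
theorem TN.crossings {G : Type u} [Group G] [Fintype G] {b₁ b₂ : G} {N : Set G}
    {σ : Equiv.Perm G} (h1 : orderOf b₁ = 3) (h2 : orderOf b₂ = 3)
    (h12 : b₂ ∉ Subgroup.zpowers b₁) (h : TN b₁ b₂ N σ) (X : Set G)
    (hX : ∀ x ∈ X, ∀ y, σ.SameCycle x y → y ∈ X) (g : G)
    (hne : ∃ x ∈ X, g⁻¹ * x ∈ Subgroup.closure ({b₁, b₂} : Set G))
    (hne' : ∃ x, x ∉ X ∧ g⁻¹ * x ∈ Subgroup.closure ({b₁, b₂} : Set G)) :
    4 ≤ (Finset.univ.filter fun m : G => g⁻¹ * m ∈ Subgroup.closure ({b₁, b₂} : Set G) ∧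
      m ∈ N ∧ ¬ (m ∈ X ↔ m * b₂ ∈ X)).card := by
  obtain ⟨o1, o2, o3, o4⟩ := order3 h1
  obtain ⟨p1, p2, p3, p4⟩ := order3 h2
  have hX1 : ∀ x ∈ X, x * b₁ ∈ X := by
    intro x hx
    refine hX x hx _ (h.same_coset h1 _ _ ?_)
    rw [inv_mul_cancel_left]; exact Subgroup.mem_zpowers _
  have hXb1 : ∀ x, (x * b₁ ∈ X ↔ x ∈ X) ∧ (x * b₁⁻¹ ∈ X ↔ x ∈ X) := by
    intro x
    refine ⟨⟨fun hx => hX _ hx _ (h.same_coset h1 _ _ ?_), fun hx => hX1 x hx⟩,
      ⟨fun hx => hX _ hx _ (h.same_coset h1 _ _ ?_),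
      fun hx => hX _ hx _ (h.same_coset h1 _ _ ?_)⟩⟩
    · rw [mul_inv_rev, inv_mul_cancel_right]
      exact Subgroup.inv_mem _ (Subgroup.mem_zpowers _)
    · rw [mul_inv_rev, inv_inv, inv_mul_cancel_right]
      exact Subgroup.mem_zpowers _
    · rw [inv_mul_cancel_left]
      exact Subgroup.inv_mem _ (Subgroup.mem_zpowers _)
  have hXb2 : ∀ m ∈ N, (m * b₂⁻¹ ∈ X ↔ m * b₂ ∈ X) := fun m hm =>
    ⟨fun hx => hX _ hx _ (h.same m hm).symm, fun hx => hX _ hx _ (h.same m hm)⟩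
  have hex := exits h1 h12 X hX1 g hne hne'
  set K : Subgroup G := Subgroup.closure ({b₁, b₂} : Set G) with hK
  have hb1K : b₁ ∈ K := Subgroup.subset_closure (Or.inl rfl)
  have hb2K : b₂ ∈ K := Subgroup.subset_closure (Or.inr rfl)
  set P : Finset G := Finset.univ.filter fun x => g⁻¹ * x ∈ K with hP
  have hP1 : ∀ x ∈ P, x * b₁ ∈ P := by
    intro x hx
    rw [hP, Finset.mem_filter] at hx ⊢
    exact ⟨Finset.mem_univ _, by rw [← mul_assoc]; exact K.mul_mem hx.2 hb1K⟩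
  have hP2 : ∀ x ∈ P, x * b₂ ∈ P := by
    intro x hx
    rw [hP, Finset.mem_filter] at hx ⊢
    exact ⟨Finset.mem_univ _, by rw [← mul_assoc]; exact K.mul_mem hx.2 hb2K⟩
  set Q : Finset G := P.filter fun m => m ∈ N with hQ
  let F : G → ℕ := fun x => if x ∈ X then 1 else 0
  have e1 : ∑ x ∈ P, F x = 3 * ∑ m ∈ Q, F m := by
    rw [sum3 h1 h.t1 P hP1 F, Finset.mul_sum]
    apply Finset.sum_congr rfl
    intro m _
    have a1 : F (m * b₁) = F m := by
      simp only [F]; rw [if_congr (hXb1 m).1 rfl rfl]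
    have a2 : F (m * b₁⁻¹) = F m := by
      simp only [F]; rw [if_congr (hXb1 m).2 rfl rfl]
    rw [a1, a2]; ring
  have e2 : ∑ x ∈ P, F x = ∑ m ∈ Q, F m + 2 * ∑ m ∈ Q, F (m * b₂) := by
    rw [sum3 h2 h.t2 P hP2 F, Finset.mul_sum, ← Finset.sum_add_distrib]
    apply Finset.sum_congr rfl
    intro m hm
    have a2 : F (m * b₂⁻¹) = F (m * b₂) := by
      simp only [F]; rw [if_congr (hXb2 m (Finset.mem_filter.1 hm).2) rfl rfl]
    rw [a2]; ring
  have e3 : ∑ m ∈ Q, F m = ∑ m ∈ Q, F (m * b₂) := by omega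
  -- the exits
  let E : G → ℕ := fun x => if x ∈ X ∧ x * b₂ ∉ X then 1 else 0
  have hE : ∑ x ∈ P, E x = (Finset.univ.filter fun x : G => g⁻¹ * x ∈ K ∧
      x ∈ X ∧ x * b₂ ∉ X).card := by
    rw [Finset.card_filter, hP, Finset.sum_filter]
    apply Finset.sum_congr rfl
    intro x _
    by_cases hx : g⁻¹ * x ∈ K
    · rw [if_pos hx]
      simp only [E, hx, true_and]
    · rw [if_neg hx, if_neg (fun h' => hx h'.1)]
  let U : G → ℕ := fun m => if m ∈ X ∧ m * b₂ ∉ X then 1 else 0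
  let D : G → ℕ := fun m => if m * b₂ ∈ X ∧ m ∉ X then 1 else 0
  have e4 : ∑ x ∈ P, E x = ∑ m ∈ Q, U m + ∑ m ∈ Q, D m := by
    rw [sum3 h2 h.t2 P hP2 E, ← Finset.sum_add_distrib]
    apply Finset.sum_congr rfl
    intro m hm
    have hmN := (Finset.mem_filter.1 hm).2
    have q1 : m * b₂ * b₂ = m * b₂⁻¹ := by rw [mul_assoc, p2]
    have q2 : m * b₂⁻¹ * b₂ = m := inv_mul_cancel_right _ _
    simp only [E, U, D, q1, q2]
    have a2 := hXb2 m hmN
    by_cases c1 : m ∈ X <;> by_cases c2 : m * b₂ ∈ X <;> simp [c1, c2, a2]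
  have e5 : ∑ m ∈ Q, F m + ∑ m ∈ Q, D m = ∑ m ∈ Q, F (m * b₂) + ∑ m ∈ Q, U m := by
    rw [← Finset.sum_add_distrib, ← Finset.sum_add_distrib]
    apply Finset.sum_congr rfl
    intro m _
    simp only [F, U, D]
    by_cases c1 : m ∈ X <;> by_cases c2 : m * b₂ ∈ X <;> simp [c1, c2]
  have e6 : (Finset.univ.filter fun m : G => g⁻¹ * m ∈ K ∧
      m ∈ N ∧ ¬ (m ∈ X ↔ m * b₂ ∈ X)).card = ∑ m ∈ Q, U m + ∑ m ∈ Q, D m := by
    rw [← Finset.sum_add_distrib, Finset.card_filter, hQ, hP, Finset.sum_filter,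
      Finset.sum_filter]
    apply Finset.sum_congr rfl
    intro m _
    by_cases hx : g⁻¹ * m ∈ K
    · by_cases hm : m ∈ N
      · rw [if_pos hx, if_pos hm]
        simp only [U, D, hx, hm, true_and]
        by_cases c1 : m ∈ X <;> by_cases c2 : m * b₂ ∈ X <;> simp [c1, c2]
      · rw [if_pos hx, if_neg hm, if_neg (fun h' => hm h'.2.1)]
    · rw [if_neg hx, if_neg (fun h' => hx h'.1)]
  rw [← hE, e4] at hex
  rw [e6]
  omega

end Pool.Agent.H151.TW
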