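import Pool.Agent.H151.TW.Main

/-!
Lifting permutations along a homomorphism whose kernel is generated by a central involution.
-/

namespace Pool.Agent.H151.TW

universe u

/-- `π` is a surjective homomorphism with kernel `{1, z}`, `z` a central involution. -/
structure Dbl {G Q : Type u} [Group G] [Group Q] (π : G →* Q) (z : G) : Prop where
  sq : z * z = 1
  ne : z ≠ 1
  comm : ∀ g, g * z = z * g
  ker : ∀ x y, π x = π y ↔ (y = x ∨ y = x * z)
  surj : Function.Surjective π

section

variable {G Q : Type u} [Group G] [Group Q] {π : G →* Q} {z : G}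

theorem Dbl.zz (h : Dbl π z) (x : G) : x * z * z = x := by rw [mul_assoc, h.sq, mul_one]

theorem Dbl.inv (h : Dbl π z) : z⁻¹ = z := inv_eq_of_mul_eq_one_left h.sq

theorem Dbl.map_z (h : Dbl π z) (x : G) : π (x * z) = π x := ((h.ker x (x * z)).2 (Or.inr rfl)).symm

theorem Dbl.ne' (h : Dbl π z) (x : G) : x * z ≠ x := fun h' => h.ne (mul_eq_left.1 h')

/-- the lift of a permutation -/
noncomputable def liftP [Finite G] (τ : Equiv.Perm Q) (s : Q → G) (π : G →* Q)
    (hs : ∀ v, τ v = v * π (s v)) : Equiv.Perm G :=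
  Equiv.ofBijective (fun x => x * s (π x)) (Finite.injective_iff_bijective.1 (by
    intro x y hxy
    have hxy' : x * s (π x) = y * s (π y) := hxy
    have h1 : τ (π x) = τ (π y) := by
      rw [hs, hs, ← map_mul, ← map_mul, hxy']
    have h2 := τ.injective h1
    rw [h2] at hxy'
    exact mul_right_cancel hxy'))

theorem liftP_apply [Finite G] (τ : Equiv.Perm Q) (s : Q → G)
    (hs : ∀ v, τ v = v * π (s v)) (x : G) : liftP τ s π hs x = x * s (π x) := rfl

theorem map_liftP [Finite G] (τ : Equiv.Perm Q) (s : Q → G)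
    (hs : ∀ v, τ v = v * π (s v)) (x : G) : π (liftP τ s π hs x) = τ (π x) := by
  rw [liftP_apply, map_mul, hs]

theorem liftP_z [Finite G] (h : Dbl π z) (τ : Equiv.Perm Q) (s : Q → G)
    (hs : ∀ v, τ v = v * π (s v)) (x : G) :
    liftP τ s π hs (x * z) = liftP τ s π hs x * z := by
  rw [liftP_apply, liftP_apply, h.map_z, mul_assoc, mul_assoc, h.comm]

variable {ρ : Equiv.Perm G} {τ : Equiv.Perm Q}

theorem map_iterate (hρ : ∀ x, π (ρ x) = τ (π x)) (i : ℕ) (x : G) :
    π (ρ^[i] x) = τ^[i] (π x) := by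
  induction i generalizing x with
  | zero => rfl
  | succ i ih => rw [Function.iterate_succ_apply, Function.iterate_succ_apply, ih, hρ]

theorem iterate_z (hρz : ∀ x, ρ (x * z) = ρ x * z) (i : ℕ) (x : G) :
    ρ^[i] (x * z) = ρ^[i] x * z := by
  induction i generalizing x with
  | zero => rfl
  | succ i ih => rw [Function.iterate_succ_apply, Function.iterate_succ_apply, hρz, ih]

theorem same_z (hρz : ∀ x, ρ (x * z) = ρ x * z) [Finite G] {x y : G} (h : ρ.SameCycle x y) :
    ρ.SameCycle (x * z) (y * z) := by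
  obtain ⟨k, hk⟩ := h.exists_nat_pow_eq
  refine ⟨k, ?_⟩
  rw [zpow_natCast, ← Equiv.Perm.iterate_eq_pow, iterate_z hρz, Equiv.Perm.iterate_eq_pow, hk]

omit [Group G] in
theorem same_iterate (x : G) (i : ℕ) : ρ.SameCycle x (ρ^[i] x) :=
  ⟨i, by rw [zpow_natCast, Equiv.Perm.iterate_eq_pow]⟩

/-- either the cycle over `π f` is doubled, or the two lifts of `π f` are in different cycles -/
theorem Dbl.period [Finite G] [Finite Q] (h : Dbl π z) (hρ : ∀ x, π (ρ x) = τ (π x))
    (hρz : ∀ x, ρ (x * z) = ρ x * z) (f : G)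
    (hbad : ∃ x, τ.SameCycle (π x) (π f) ∧ ρ.SameCycle x (x * z)) :
    ρ^[Function.minimalPeriod τ (π f)] f = f * z := by
  set m := Function.minimalPeriod τ (π f) with hm
  have h1 : π (ρ^[m] f) = π f := by
    rw [map_iterate hρ]
    exact Function.iterate_minimalPeriod
  have h2 := (h.ker _ _).1 h1.symm
  rcases h2 with h2 | h2
  swap
  · exact h2
  exfalso
  -- `f` and `f z` are in the same cycle
  obtain ⟨x, hx1, hx2⟩ := hbad
  have hff : ρ.SameCycle f (f * z) := by
    obtain ⟨i, hi⟩ := hx1.exists_nat_pow_eq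
    rw [← Equiv.Perm.iterate_eq_pow, ← map_iterate hρ] at hi
    have h3 := same_iterate (ρ := ρ) x i
    rcases (h.ker _ _).1 hi with h4 | h4
    · -- `f = ρ^i x`
      rw [← h4] at h3
      exact (h3.symm.trans hx2).trans (same_z hρz h3)
    · have h5 : ρ^[i] x = f * z := by rw [h4, h.zz]
      rw [h5] at h3
      have h6 := same_z hρz h3
      rw [h.zz] at h6
      exact (h6.symm.trans hx2.symm).trans h3
  obtain ⟨k, hk⟩ := hff.exists_nat_pow_eq
  rw [← Equiv.Perm.iterate_eq_pow] at hk
  have h7 : τ^[k] (π f) = π f := by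
    rw [← map_iterate hρ, hk, h.map_z]
  have h8 : m ∣ k := (Function.isPeriodicPt_iff_minimalPeriod_dvd).1 h7
  obtain ⟨j, rfl⟩ := h8
  have h9 : ∀ j : ℕ, ρ^[m * j] f = f := by
    intro j
    induction j with
    | zero => rfl
    | succ j ih =>
      rw [Nat.mul_succ, Function.iterate_add_apply, h2, ih]
  rw [h9] at hk
  exact h.ne' f hk.symm

/-- skipping one element of a doubled cycle -/
theorem Dbl.skip [Finite G] [Finite Q] (h : Dbl π z) {ρ' : Equiv.Perm G}
    (hρ : ∀ x, π (ρ x) = τ (π x))
    (hρz : ∀ x, ρ (x * z) = ρ x * z) (hρz' : ∀ x, ρ' (x * z) = ρ' x * z) (f : G)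
    (hbad : ∃ x, τ.SameCycle (π x) (π f) ∧ ρ.SameCycle x (x * z))
    (hf : ρ' f = ρ (ρ f) * z) (hτ : τ (τ (π f)) ≠ π f) (hτ1 : τ (π f) ≠ π f)
    (hagree : ∀ y, τ.SameCycle (π f) (π y) → π y ≠ π f → π y ≠ τ (π f) → ρ' y = ρ y)
    (x : G) (hx : τ.SameCycle (π f) (π x)) (hx1 : π x ≠ τ (π f)) :
    ¬ ρ'.SameCycle x (x * z) := by
  have hm := h.period hρ hρz f hbad
  set m := Function.minimalPeriod τ (π f) with hmdef
  have hmpos : 0 < m := by
    apply Function.minimalPeriod_pos_of_mem_periodicPts
    exact Function.Injective.mem_periodicPts τ.injective (π f)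
  have hm1 : m ≠ 1 := by
    intro h1
    have := Function.iterate_minimalPeriod (f := τ) (x := π f)
    rw [← hmdef, h1] at this
    exact hτ1 this
  have hm2 : m ≠ 2 := by
    intro h1
    have := Function.iterate_minimalPeriod (f := τ) (x := π f)
    rw [← hmdef, h1] at this
    exact hτ this
  have hinj : ∀ i j, i < m → j < m → τ^[i] (π f) = τ^[j] (π f) → i = j := by
    intro i j hi hj hij
    exact (Function.iterate_eq_iterate_iff_of_lt_minimalPeriod hi hj).1 hij
  -- the iterates of `ρ'`
  have key : ∀ j, 1 ≤ j → j ≤ m - 1 → ρ'^[j] f = ρ^[j + 1] f * z := by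
    intro j
    induction j with
    | zero => intro h0; omega
    | succ j ih =>
      intro _ hj
      rcases Nat.eq_zero_or_pos j with rfl | hjpos
      · exact hf
      · rw [Function.iterate_succ_apply', ih hjpos (by omega)]
        have e1 : π (ρ^[j + 1] f * z) = τ^[j + 1] (π f) := by
          rw [h.map_z, map_iterate hρ]
        have e2 : ρ' (ρ^[j + 1] f * z) = ρ (ρ^[j + 1] f * z) := by
          apply hagree
          · rw [e1]; exact same_iterate (ρ := τ) _ _
          · rw [e1]
            intro h'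
            have := hinj (j + 1) 0 (by omega) hmpos h'
            omega
          · rw [e1]
            intro h'
            have := hinj (j + 1) 1 (by omega) (by omega) h'
            omega
        rw [e2, hρz, ← Function.iterate_succ_apply' ρ]
  have hper : ρ'^[m - 1] f = f := by
    rw [key (m - 1) (by omega) le_rfl]
    have : m - 1 + 1 = m := by omega
    rw [this, hm, h.zz]
  have hpermul : ∀ j : ℕ, ρ'^[(m - 1) * j] f = f := by
    intro j
    induction j with
    | zero => rfl
    | succ j ih =>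
      rw [Nat.mul_succ, Function.iterate_add_apply, hper, ih]
  have hnof : ¬ ρ'.SameCycle f (f * z) := by
    intro hs
    obtain ⟨k, hk⟩ := hs.exists_nat_pow_eq
    rw [← Equiv.Perm.iterate_eq_pow] at hk
    have e1 : k = k % (m - 1) + (m - 1) * (k / (m - 1)) := (Nat.mod_add_div k (m - 1)).symm
    rw [e1, Function.iterate_add_apply, hpermul] at hk
    have hlt : k % (m - 1) < m - 1 := Nat.mod_lt _ (by omega)
    rcases Nat.eq_zero_or_pos (k % (m - 1)) with h0 | hpos
    · rw [h0] at hk
      exact h.ne' f hk.symm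
    · rw [key _ hpos (by omega)] at hk
      have e2 := mul_right_cancel hk
      have e3 : τ^[k % (m - 1) + 1] (π f) = τ^[0] (π f) := by
        rw [← map_iterate hρ, e2]; rfl
      have := hinj _ 0 (by omega) hmpos e3
      omega
  -- the general case
  obtain ⟨i, hi⟩ := hx.exists_nat_pow_eq
  rw [← Equiv.Perm.iterate_eq_pow] at hi
  have hi' : τ^[i % m] (π f) = π x := by
    rw [← hi, Function.iterate_mod_minimalPeriod_eq]
  have himod : i % m < m := Nat.mod_lt _ hmpos
  have hi1 : i % m ≠ 1 := by
    intro h1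
    rw [h1] at hi'
    exact hx1 hi'.symm
  have hfx : ρ'.SameCycle f x ∨ ρ'.SameCycle (f * z) x := by
    rcases Nat.eq_zero_or_pos (i % m) with h0 | hpos
    · rw [h0] at hi'
      rcases (h.ker f x).1 hi' with h1 | h1
      · left; rw [h1]
      · right; rw [h1]
    · have e1 := key (i % m - 1) (by omega) (by omega)
      have e0 : i % m - 1 + 1 = i % m := by omega
      rw [e0] at e1
      have e2 : π (ρ'^[i % m - 1] f) = π x := by
        rw [e1, h.map_z, map_iterate hρ]; exact hi'
      have e3 := same_iterate (ρ := ρ') f (i % m - 1)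
      rcases (h.ker _ _).1 e2 with h1 | h1
      · left; rw [h1]; exact e3
      · right
        rw [h1]
        exact same_z hρz' e3
  intro hs
  apply hnof
  rcases hfx with h1 | h1
  · exact (h1.trans hs).trans (same_z hρz' h1).symm
  · have h2 := same_z hρz' h1
    rw [h.zz] at h2
    exact (h2.trans hs.symm).trans h1.symm

end

end Pool.Agent.H151.TW
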