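import Pool.Agent.H151.TW.Phi
import Pool.Graph.R_seed8.R759.HCFinal

/-!
Hamiltonian cycles of Cayley graphs whose connection set contains a central involution and two
elements of order three modulo it.
-/

namespace Pool.Agent.H151.TW

open Pool.Agent.N81.Cay Pool.Agent.R759.HC

universe u

section

variable {G Q : Type u} [Group G] [Group Q] {π : G →* Q} {z : G}

open Classical in
theorem ham_dbl [Finite G] [Fintype Q] (h : Dbl π z) {A : Set G} (hA : ∀ x ∈ A, x⁻¹ ∈ A)
    (hgen : Subgroup.closure A = ⊤) (hzA : z ∈ A) {b₁ b₂ : G} (hb₁ : b₁ ∈ A) (hb₂ : b₂ ∈ A)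
    (h1 : orderOf b₁ = 3) (h1' : orderOf (π b₁) = 3) (h2' : orderOf (π b₂) = 3)
    (h12 : π b₂ ∉ Subgroup.zpowers (π b₁)) :
    ∃ ρ : Equiv.Perm G, CycOn A Set.univ ρ := by
  obtain ⟨N, σ, hT⟩ := exists_TN h1' h2'
  obtain ⟨D, σ', t, a, hDN, hD2, hP⟩ := exists_pre h hb₁ (hA _ hb₁) hb₂ (hA _ hb₂) h1 h1' h12 hT
  have hA' : ∀ x ∈ π '' A, x⁻¹ ∈ π '' A := by
    rintro _ ⟨x, hx, rfl⟩
    exact ⟨x⁻¹, hA x hx, map_inv _ _⟩
  have hgen' : Subgroup.closure (π '' A) = ⊤ := by
    rw [← MonoidHom.map_closure, hgen, ← MonoidHom.range_eq_map]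
    exact MonoidHom.range_eq_top.2 h.surj
  obtain ⟨M, hM⟩ := hT.spans h1' h2' h12 (π '' A) hA' ⟨b₂, hb₂, rfl⟩ hgen' D hDN hD2
  choose! X Y hX hY hXY using hM.mat.edge
  have hstep2 := hT.step2 h1' h12
  -- the directions at the exceptional elements
  have hε : ∀ n, ∃ e : G, (e = b₁ ∨ e = b₁⁻¹) ∧ (n ∈ N → σ n = n * π e ∧ σ.symm n = n * (π e)⁻¹) := by
    intro n
    by_cases hn : n ∈ N
    · obtain ⟨e, he, e1, e2, -⟩ := hT.atN n hn
      have hsym : σ.symm n = n * e⁻¹ := by rw [Equiv.symm_apply_eq, e2]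
      rcases he with rfl | rfl
      · exact ⟨b₁, Or.inl rfl, fun _ => ⟨e1, hsym⟩⟩
      · refine ⟨b₁⁻¹, Or.inr rfl, fun _ => ?_⟩
        rw [map_inv]
        exact ⟨e1, hsym⟩
    · exact ⟨b₁, Or.inl rfl, fun h' => absurd h' hn⟩
  choose ε hε1 hε2 using hε
  let used : Q → Prop := fun n => ∃ e ∈ M, X e = σ.symm n ∨ Y e = σ.symm n
  let δ : Q → G := fun n => if used n then ε n else (ε n)⁻¹
  have hδ : ∀ n ∈ D, δ n = b₁ ∨ δ n = b₁⁻¹ := by
    intro n _
    simp only [δ]
    split_ifs
    · exact hε1 n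
    · rcases hε1 n with h' | h'
      · right; rw [h']
      · left; rw [h', inv_inv]
  obtain ⟨Φ, hΦA, hΦ2, hΦs, hΦv⟩ := exists_phi h hzA hb₁ (hA _ hb₁) h1' h12 hT hDN hP δ hδ
  -- the ends of the links are not hosts
  have hpr : ∀ n ∈ D, proj σ D (σ n) = σ.symm n ∧ proj σ D (σ.symm n) = σ.symm n := by
    intro n hn
    unfold proj
    constructor
    · rw [Equiv.symm_apply_apply, if_pos hn]
    · rw [if_neg]
      intro h'
      have e1 : σ.symm (σ.symm n) = n :=
        hD2 _ h' n hn ((same_symm (σ.symm n)).symm.trans (same_symm n).symm)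
      apply hstep2 (σ.symm (σ.symm n))
      rw [Equiv.apply_symm_apply, Equiv.apply_symm_apply]
      exact e1.symm
  have hne2 : ∀ n, σ n ≠ σ.symm n := by
    intro n h'
    apply hstep2 (σ.symm n)
    rw [Equiv.apply_symm_apply]; exact h'
  have hnh : ∀ e ∈ M, ∀ n ∈ D, X e ≠ n * π (δ n) ∧ Y e ≠ n * π (δ n) := by
    intro e he n hn
    obtain ⟨q1, q2⟩ := hε2 n (hDN hn)
    obtain ⟨r1, r2⟩ := hpr n hn
    by_cases hu : used n
    · have hδn : n * π (δ n) = σ n := by
        simp only [δ]; rw [if_pos hu, q1]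
      rw [hδn]
      obtain ⟨e', he', hxy⟩ := hu
      have hon' : On (σ.symm n) e' := by
        rcases hxy with h' | h'
        · left; rw [← hX e' he', h', r2]
        · right; rw [← hY e' he', h', r2]
      constructor
      · intro h'
        have e1 : e.1 = σ.symm n := by rw [← hX e he, h', r1]
        have ee : e = e' := hM.mat.disj e he e' he' _ (Or.inl e1) hon'
        rcases hxy with h'' | h''
        · rw [← ee, h'] at h''
          exact hne2 n h''
        · rw [← ee] at h''
          have e2 : e.2 = σ.symm n := by rw [← hY e he, h'', r2]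
          exact hM.mat.ne e he (e1.trans e2.symm)
      · intro h'
        have e1 : e.2 = σ.symm n := by rw [← hY e he, h', r1]
        have ee : e = e' := hM.mat.disj e he e' he' _ (Or.inr e1) hon'
        rcases hxy with h'' | h''
        · rw [← ee] at h''
          have e2 : e.1 = σ.symm n := by rw [← hX e he, h'', r2]
          exact hM.mat.ne e he (e2.trans e1.symm)
        · rw [← ee, h'] at h''
          exact hne2 n h''
    · have hδn : n * π (δ n) = σ.symm n := by
        simp only [δ]; rw [if_neg hu, q2, map_inv]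
      rw [hδn]
      exact ⟨fun h' => hu ⟨e, he, Or.inl h'⟩, fun h' => hu ⟨e, he, Or.inr h'⟩⟩
  choose! arr harr1 harr2 using hΦv
  have hXarr : ∀ e ∈ M, π (arr (X e)) = X e ∧ Φ (arr (X e)) = arr (X e) * z := fun e he =>
    ⟨harr1 _ fun n hn => (hnh e he n hn).1, harr2 _ fun n hn => (hnh e he n hn).1⟩
  have hYarr : ∀ e ∈ M, π (arr (Y e)) = Y e ∧ Φ (arr (Y e)) = arr (Y e) * z := fun e he =>
    ⟨harr1 _ fun n hn => (hnh e he n hn).2, harr2 _ fun n hn => (hnh e he n hn).2⟩
  let im : Q × Q → G × G := fun e => (arr (X e), arr (Y e))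
  let R : G → G → Prop := fun x y => x⁻¹ * y ∈ A
  have hR : ∀ x y, R x y → R y x := by
    intro x y hxy
    have := hA _ hxy
    rwa [mul_inv_rev, inv_inv] at this
  let E' : G → G → Prop := fun u v => (R u v ∧ R (Φ u) (Φ v)) ∨ (R u (Φ v) ∧ R (Φ u) v)
  have hXne : ∀ e ∈ M, X e ≠ Y e := by
    intro e he h'
    apply hM.mat.ne e he
    rw [← hX e he, ← hY e he, h']
  -- from a common vertex of images to a common vertex
  have hOn : ∀ e ∈ M, ∀ w, On w (im e) → On (proj σ D (π w)) e := by
    rintro e he w (hw | hw)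
    · left
      have e1 : arr (X e) = w := hw
      rw [← e1, (hXarr e he).1, hX e he]
    · right
      have e1 : arr (Y e) = w := hw
      rw [← e1, (hYarr e he).1, hY e he]
  have hmat : IsMat E' (M.image im) := by
    constructor
    · intro g hg
      obtain ⟨e, he, rfl⟩ := Finset.mem_image.1 hg
      obtain ⟨c, hc, hπc⟩ := hXY e he
      obtain ⟨x1, x2⟩ := hXarr e he
      obtain ⟨y1, y2⟩ := hYarr e he
      have e1 : π (arr (Y e)) = π (arr (X e) * c) := by
        rw [map_mul, x1, y1, hπc, mul_inv_cancel_left]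
      change (R (arr (X e)) (arr (Y e)) ∧ R (Φ (arr (X e))) (Φ (arr (Y e)))) ∨
        (R (arr (X e)) (Φ (arr (Y e))) ∧ R (Φ (arr (X e))) (arr (Y e)))
      rw [x2, y2]
      rcases (h.ker _ _).1 e1 with h' | h'
      · left
        rw [← h']
        constructor
        · change (arr (X e))⁻¹ * (arr (X e) * c) ∈ A
          rw [inv_mul_cancel_left]; exact hc
        · change (arr (X e) * z)⁻¹ * (arr (X e) * c * z) ∈ A
          have : (arr (X e) * z)⁻¹ * (arr (X e) * c * z) = z⁻¹ * (c * z) := by group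
          rw [this, h.comm, inv_mul_cancel_left]; exact hc
      · right
        rw [← h']
        constructor
        · change (arr (X e))⁻¹ * (arr (X e) * c) ∈ A
          rw [inv_mul_cancel_left]; exact hc
        · have h'' : arr (Y e) = arr (X e) * c * z := by rw [h', h.zz]
          rw [h'']
          change (arr (X e) * z)⁻¹ * (arr (X e) * c * z) ∈ A
          have : (arr (X e) * z)⁻¹ * (arr (X e) * c * z) = z⁻¹ * (c * z) := by group
          rw [this, h.comm, inv_mul_cancel_left]; exact hc
    · intro g hg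
      obtain ⟨e, he, rfl⟩ := Finset.mem_image.1 hg
      intro h'
      have h'' : arr (X e) = arr (Y e) := h'
      apply hXne e he
      rw [← (hXarr e he).1, ← (hYarr e he).1, h'']
    · intro g hg g' hg' w hw hw'
      obtain ⟨e, he, rfl⟩ := Finset.mem_image.1 hg
      obtain ⟨e', he', rfl⟩ := Finset.mem_image.1 hg'
      rw [hM.mat.disj e he e' he' _ (hOn e he w hw) (hOn e' he' w hw')]
  let r : Setoid Q := Equiv.Perm.SameCycle.setoid σ
  let r' : Setoid G := Equiv.Perm.SameCycle.setoid Φ
  have hrX : ∀ e ∈ M, r e.1 (X e) := by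
    intro e he
    have := proj_same (σ := σ) D (X e)
    rw [hX e he] at this
    exact this.symm
  have hrY : ∀ e ∈ M, r e.2 (Y e) := by
    intro e he
    have := proj_same (σ := σ) D (Y e)
    rw [hY e he] at this
    exact this.symm
  have hr' : ∀ x y, r' x y ↔ r (π x) (π y) := fun x y => hΦs x y
  -- connections downstairs
  have hdown : ∀ F ⊆ M, ∀ x y, conn r' (F.image im) x y → conn r F (π x) (π y) := by
    intro F hF x y hxy
    have hle : conn r' (F.image im) ≤ Setoid.comap π (conn r F) := by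
      rw [conn_le_iff]
      constructor
      · intro x y hxy
        exact le_conn r F ((hr' x y).1 hxy)
      · intro g hg
        obtain ⟨e, he, rfl⟩ := Finset.mem_image.1 hg
        change conn r F (π (arr (X e))) (π (arr (Y e)))
        rw [(hXarr e (hF he)).1, (hYarr e (hF he)).1]
        exact st (st (ss (le_conn r F (hrX e (hF he)))) (conn_mem r he))
          (le_conn r F (hrY e (hF he)))
    exact hle hxy
  have hup : ∀ x y, conn r' (M.image im) x y := by
    let s' : Setoid Q :=
      { r := fun v w => ∀ x y, π x = v → π y = w → conn r' (M.image im) x y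
        iseqv :=
          { refl := fun v x y hx hy => le_conn r' _ ((hr' x y).2 (by rw [hx, hy]))
            symm := fun hvw x y hx hy => ss (hvw y x hy hx)
            trans := fun {u v w} huv hvw x y hx hy => by
              obtain ⟨y', hy'⟩ := h.surj v
              exact st (huv x y' hx hy') (hvw y' y hy' hy) } }
    have hle : conn r M ≤ s' := by
      rw [conn_le_iff]
      constructor
      · intro v w hvw x y hx hy
        exact le_conn r' _ ((hr' x y).2 (by rw [hx, hy]; exact hvw))
      · intro e he x y hx hy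
        have c1 : conn r' (M.image im) x (arr (X e)) :=
          le_conn r' _ ((hr' _ _).2 (by rw [hx, (hXarr e he).1]; exact hrX e he))
        have c2 : conn r' (M.image im) y (arr (Y e)) :=
          le_conn r' _ ((hr' _ _).2 (by rw [hy, (hYarr e he).1]; exact hrY e he))
        have c3 : conn r' (M.image im) (arr (X e)) (arr (Y e)) :=
          conn_mem r' (Finset.mem_image_of_mem im he)
        exact st (st c1 c3) (ss c2)
    intro x y
    exact hle (hM.top (π x) (π y)) x y rfl rfl
  have hspans : Spans r' E' (M.image im) := by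
    refine ⟨hmat, ?_, hup⟩
    intro g hg hcon
    obtain ⟨e, he, rfl⟩ := Finset.mem_image.1 hg
    have hsub : (M.image im).erase (im e) ⊆ (M.erase e).image im := by
      intro g hg
      rw [Finset.mem_erase] at hg
      obtain ⟨e', he', rfl⟩ := Finset.mem_image.1 hg.2
      refine Finset.mem_image_of_mem im (Finset.mem_erase.2 ⟨?_, he'⟩)
      rintro rfl
      exact hg.1 rfl
    have c1 := hdown (M.erase e) (Finset.erase_subset _ _) _ _ (conn_mono r' hsub hcon)
    change conn r (M.erase e) (π (arr (X e))) (π (arr (Y e))) at c1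
    rw [(hXarr e he).1, (hYarr e he).1] at c1
    exact hM.forest e he (st (st (le_conn r _ (hrX e he)) c1) (ss (le_conn r _ (hrY e he))))
  obtain ⟨ρ, g1, g2⟩ := merge_all' Pool.Agent.N319.CayA.merge R hR Φ hΦA hΦ2 r'
    (fun x y => Iff.rfl) (M.image im) hspans
  exact ⟨ρ, fun x hx => absurd (Set.mem_univ x) hx, fun x _ => Set.mem_univ _,
    fun x _ => g1 x, fun x _ y _ => g2 x y⟩

end

/-- a central involution and two elements of order three modulo it -/
theorem ham_central {G : Type u} [Group G] [Finite G] (A : Set G) (hA : ∀ x ∈ A, x⁻¹ ∈ A)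
    (hgen : Subgroup.closure A = ⊤) (z b₁ b₂ : G) (hzA : z ∈ A) (hz2 : orderOf z = 2)
    (hzc : ∀ g, g * z = z * g) (hb₁ : b₁ ∈ A) (hb₂ : b₂ ∈ A) (h1 : orderOf b₁ = 3)
    (h2 : b₂ ^ 3 = 1 ∨ b₂ ^ 3 = z) (h12 : b₂ ∉ Subgroup.closure ({b₁, z} : Set G)) :
    ∃ ρ : Equiv.Perm G, CycOn A Set.univ ρ := by
  classical
  have hzz : z * z = 1 := by rw [← pow_two, ← hz2]; exact pow_orderOf_eq_one z
  have hz1 : z ≠ 1 := by rintro rfl; rw [orderOf_one] at hz2; omega
  have hzi : z⁻¹ = z := inv_eq_of_mul_eq_one_left hzz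
  let Z : Subgroup G := Subgroup.zpowers z
  have hZ : ∀ x, x ∈ Z ↔ x = 1 ∨ x = z := by
    intro x
    constructor
    · intro hx
      obtain ⟨k, rfl⟩ := Subgroup.mem_zpowers_iff.1 hx
      rcases Int.even_or_odd' k with ⟨j, hj | hj⟩
      · left
        rw [hj, zpow_mul, zpow_two, hzz, one_zpow]
      · right
        rw [hj, zpow_add_one, zpow_mul, zpow_two, hzz, one_zpow, one_mul]
    · rintro (rfl | rfl)
      · exact Z.one_mem
      · exact Subgroup.mem_zpowers _
  have hN : Z.Normal := by
    constructor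
    intro n hn g
    rcases (hZ n).1 hn with rfl | rfl
    · rw [mul_one, mul_inv_cancel]; exact Z.one_mem
    · rw [hzc, mul_inv_cancel_right]; exact hn
  let π : G →* G ⧸ Z := QuotientGroup.mk' Z
  have hker : ∀ x y, π x = π y ↔ (y = x ∨ y = x * z) := by
    intro x y
    have e1 : π x = π y ↔ x⁻¹ * y ∈ Z := QuotientGroup.eq
    rw [e1, hZ]
    constructor
    · rintro (h' | h')
      · left; exact (inv_mul_eq_one.1 h').symm
      · right; rw [← h', mul_inv_cancel_left]
    · rintro (rfl | rfl)
      · left; exact inv_mul_cancel _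
      · right; rw [inv_mul_cancel_left]
  have hD : Dbl π z := ⟨hzz, hz1, hzc, hker, QuotientGroup.mk'_surjective Z⟩
  have hπz : π z = 1 := by
    rw [← map_one π]; exact ((hker 1 z).2 (Or.inr (one_mul z).symm)).symm
  have hb₁K : b₁ ∈ Subgroup.closure ({b₁, z} : Set G) := Subgroup.subset_closure (Or.inl rfl)
  have hzK : z ∈ Subgroup.closure ({b₁, z} : Set G) := Subgroup.subset_closure (Or.inr rfl)
  have hmemK : ∀ u v, u ∈ Subgroup.closure ({b₁, z} : Set G) → π u = π v →
      v ∈ Subgroup.closure ({b₁, z} : Set G) := by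
    intro u v hu huv
    rcases (hker u v).1 huv with rfl | rfl
    · exact hu
    · exact Subgroup.mul_mem _ hu hzK
  have h1' : orderOf (π b₁) = 3 := by
    have : Fact (Nat.Prime 3) := ⟨Nat.prime_three⟩
    apply orderOf_eq_prime
    · rw [← map_pow, ← h1, pow_orderOf_eq_one, map_one]
    · intro h'
      rw [← map_one π] at h'
      rcases (hker b₁ 1).1 h' with h'' | h''
      · rw [← h'', orderOf_one] at h1; omega
      · have : b₁ = z := by
          rw [eq_comm, mul_eq_one_iff_eq_inv, hzi] at h''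
          exact h''
        rw [this, hz2] at h1; omega
  have h2' : orderOf (π b₂) = 3 := by
    have : Fact (Nat.Prime 3) := ⟨Nat.prime_three⟩
    apply orderOf_eq_prime
    · rw [← map_pow]
      rcases h2 with h' | h'
      · rw [h', map_one]
      · rw [h', hπz]
    · intro h'
      rw [← map_one π] at h'
      exact h12 (hmemK 1 b₂ (Subgroup.one_mem _) h'.symm)
  have h12' : π b₂ ∉ Subgroup.zpowers (π b₁) := by
    intro h'
    rcases (mem_zp3 h1' _).1 h' with h'' | h'' | h''
    · rw [← map_one π] at h''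
      exact h12 (hmemK 1 b₂ (Subgroup.one_mem _) h''.symm)
    · exact h12 (hmemK b₁ b₂ hb₁K h''.symm)
    · rw [← map_inv] at h''
      exact h12 (hmemK _ b₂ (Subgroup.inv_mem _ hb₁K) h''.symm)
  have : Fintype (G ⧸ Z) := Fintype.ofFinite _
  exact ham_dbl hD hA hgen hzA hb₁ hb₂ h1 h1' h2' h12'

end Pool.Agent.H151.TW
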