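import Pool.Agent.H151.TW.Slots

/-!
The cut condition for the cycles of `σ`, and the spanning matching.
-/

namespace Pool.Agent.H151.TW

open Pool.Agent.N81.Cay

universe u

section

variable {G : Type u} [Group G] {b₁ b₂ : G} {N : Set G} {σ : Equiv.Perm G}

theorem nine_le [Finite G] (h1 : orderOf b₁ = 3) (h2 : orderOf b₂ = 3)
    (h12 : b₂ ∉ Subgroup.zpowers b₁) :
    9 ≤ Nat.card (Subgroup.closure ({b₁, b₂} : Set G)) := by
  set K : Subgroup G := Subgroup.closure ({b₁, b₂} : Set G) with hK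
  have hb1K : b₁ ∈ K := Subgroup.subset_closure (Or.inl rfl)
  have hb2K : b₂ ∈ K := Subgroup.subset_closure (Or.inr rfl)
  have h1K : Subgroup.zpowers b₁ ≤ K := by rw [Subgroup.zpowers_le]; exact hb1K
  have h2K : Subgroup.zpowers b₂ ≤ K := by rw [Subgroup.zpowers_le]; exact hb2K
  have h9 : Nat.card (Subgroup.zpowers b₁ × Subgroup.zpowers b₂) = 9 := by
    rw [Nat.card_prod, Nat.card_zpowers, Nat.card_zpowers, h1, h2]
  rw [← h9]
  refine Nat.card_le_card_of_injective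
    (fun q : Subgroup.zpowers b₁ × Subgroup.zpowers b₂ =>
      (⟨(q.1 : G) * (q.2 : G), K.mul_mem (h1K q.1.2) (h2K q.2.2)⟩ : K)) ?_
  rintro ⟨u, v⟩ ⟨u', v'⟩ h
  have e : (u : G) * (v : G) = (u' : G) * (v' : G) := congrArg Subtype.val h
  have e2 : ((u' : G))⁻¹ * (u : G) = (v' : G) * ((v : G))⁻¹ := by
    rw [eq_mul_inv_iff_mul_eq, mul_assoc, e, inv_mul_cancel_left]
  have e3 : (v' : G) * ((v : G))⁻¹ ∈ Subgroup.zpowers b₁ := by
    rw [← e2]; exact Subgroup.mul_mem _ (Subgroup.inv_mem _ u'.2) u.2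
  have e4 : (v' : G) * ((v : G))⁻¹ ∈ Subgroup.zpowers b₂ :=
    Subgroup.mul_mem _ v'.2 (Subgroup.inv_mem _ v.2)
  have e5 : (v' : G) * ((v : G))⁻¹ = 1 := by
    rcases (mem_zp3 h2 _).1 e4 with h | h | h
    · exact h
    · rw [h] at e3; exact absurd e3 h12
    · rw [h] at e3; exact absurd (inv_mem_iff.1 e3) h12
  have e6 : (v' : G) = v := mul_inv_eq_one.1 e5
  have e7 : (u : G) = u' := by
    rw [e5] at e2
    exact (inv_mul_eq_one.1 e2).symm
  rw [Prod.mk.injEq]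
  exact ⟨Subtype.ext e7, Subtype.ext e6.symm⟩

open Classical in
theorem TN.four_le [Fintype G] (h1 : orderOf b₁ = 3)
    (h12 : b₂ ∉ Subgroup.zpowers b₁) (h : TN b₁ b₂ N σ) (X : Set G)
    (hX : ∀ x ∈ X, ∀ y, σ.SameCycle x y → y ∈ X) (g : G)
    (hne : ∃ x ∈ X, g⁻¹ * x ∈ Subgroup.closure ({b₁, b₂} : Set G)) :
    4 ≤ (Finset.univ.filter fun y : G => y ∈ X ∧
      g⁻¹ * y ∈ Subgroup.closure ({b₁, b₂} : Set G)).card := by
  obtain ⟨o1, o2, o3, o4⟩ := order3 h1
  obtain ⟨x, hx, hgx⟩ := hne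
  set K : Subgroup G := Subgroup.closure ({b₁, b₂} : Set G) with hK
  have hb1K : b₁ ∈ K := Subgroup.subset_closure (Or.inl rfl)
  obtain ⟨y, hy1, hy2, hy3⟩ := h.far h1 h12 x
  have hsub : ({x, x * b₁, x * b₁⁻¹, y} : Finset G) ⊆
      Finset.univ.filter fun y : G => y ∈ X ∧ g⁻¹ * y ∈ K := by
    intro z hz
    rw [Finset.mem_filter]
    refine ⟨Finset.mem_univ _, ?_⟩
    simp only [Finset.mem_insert, Finset.mem_singleton] at hz
    rcases hz with rfl | rfl | rfl | rfl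
    · exact ⟨hx, hgx⟩
    · refine ⟨hX _ hx _ (h.same_coset h1 _ _ ?_), ?_⟩
      · rw [inv_mul_cancel_left]; exact Subgroup.mem_zpowers _
      · rw [← mul_assoc]; exact K.mul_mem hgx hb1K
    · refine ⟨hX _ hx _ (h.same_coset h1 _ _ ?_), ?_⟩
      · rw [inv_mul_cancel_left]; exact Subgroup.inv_mem _ (Subgroup.mem_zpowers _)
      · rw [← mul_assoc]; exact K.mul_mem hgx (K.inv_mem hb1K)
    · refine ⟨hX _ hx _ hy1, ?_⟩
      have : g⁻¹ * z = (g⁻¹ * x) * (x⁻¹ * z) := by group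
      rw [this]; exact K.mul_mem hgx hy3
  refine le_trans ?_ (Finset.card_le_card hsub)
  have d1 : x ≠ x * b₁ := fun h' => o1 (mul_eq_left.1 h'.symm)
  have d2 : x ≠ x * b₁⁻¹ := fun h' => o1 (inv_eq_one.1 (mul_eq_left.1 h'.symm))
  have d3 : x * b₁ ≠ x * b₁⁻¹ := fun h' => o4 (mul_left_cancel h').symm
  have d4 : x ≠ y := by
    rintro rfl
    apply hy2; rw [inv_mul_cancel]; exact Subgroup.one_mem _
  have d5 : x * b₁ ≠ y := by
    rintro rfl
    apply hy2; rw [inv_mul_cancel_left]; exact Subgroup.mem_zpowers _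
  have d6 : x * b₁⁻¹ ≠ y := by
    rintro rfl
    apply hy2; rw [inv_mul_cancel_left]; exact Subgroup.inv_mem _ (Subgroup.mem_zpowers _)
  rw [Finset.card_insert_of_notMem, Finset.card_insert_of_notMem, Finset.card_insert_of_notMem,
    Finset.card_singleton]
  · simpa using d6
  · simp only [Finset.mem_insert, Finset.mem_singleton, not_or]
    exact ⟨d3, d5⟩
  · simp only [Finset.mem_insert, Finset.mem_singleton, not_or]
    exact ⟨d1, d2, d4⟩

open Classical in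
/-- the cut bound -/
theorem TN.cut [Fintype G] (h1 : orderOf b₁ = 3) (h2 : orderOf b₂ = 3)
    (h12 : b₂ ∉ Subgroup.zpowers b₁) (h : TN b₁ b₂ N σ)
    (k : ℕ) (c : Fin k → G) (w : Fin k → ℝ)
    (hc : ∀ i, c i ∉ Subgroup.closure ({b₁, b₂} : Set G)) (hw : ∀ i, 0 ≤ w i)
    (hW : ∑ i, w i = 1)
    (hcutK : ∀ X : Set G, (∀ x ∈ X, ∀ y ∈ Subgroup.closure ({b₁, b₂} : Set G), x * y ∈ X) →
      X.Nonempty → X ≠ Set.univ →
      (Nat.card (Subgroup.closure ({b₁, b₂} : Set G)) : ℝ) ≤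
        ∑ i, w i * (Nat.card {x : G // x ∈ X ∧ x * c i ∉ X} : ℝ))
    (X : Set G) (hX : ∀ x ∈ X, ∀ y, σ.SameCycle x y → y ∈ X) (hX1 : X.Nonempty)
    (hX2 : X ≠ Set.univ) :
    8 ≤ ((Finset.univ.filter fun m : G => m ∈ N ∧ ¬ (m ∈ X ↔ m * b₂ ∈ X)).card : ℝ) +
        ∑ i, w i * (Nat.card {x : G // x ∈ X ∧ x * c i ∉ X} : ℝ) := by
  have h9 := nine_le h1 h2 h12
  have hXc : ∀ x ∈ Xᶜ, ∀ y, σ.SameCycle x y → y ∈ Xᶜ := by
    intro x hx y hxy hy
    exact hx (hX y hy x hxy.symm)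
  set K : Subgroup G := Subgroup.closure ({b₁, b₂} : Set G) with hK
  have hsum0 : 0 ≤ ∑ i, w i * (Nat.card {x : G // x ∈ X ∧ x * c i ∉ X} : ℝ) :=
    Finset.sum_nonneg fun i _ => mul_nonneg (hw i) (Nat.cast_nonneg _)
  by_cases hpart : ∃ g, (∃ x ∈ X, g⁻¹ * x ∈ K) ∧ (∃ x, x ∉ X ∧ g⁻¹ * x ∈ K)
  swap
  · have hcl : ∀ x ∈ X, ∀ y ∈ K, x * y ∈ X := by
      intro x hx y hy
      by_contra hxy
      exact hpart ⟨x, ⟨x, hx, by rw [inv_mul_cancel]; exact K.one_mem⟩,
        ⟨x * y, hxy, by rw [inv_mul_cancel_left]; exact hy⟩⟩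
    have h5 := hcutK X hcl hX1 hX2
    have h9' : (9 : ℝ) ≤ Nat.card K := by exact_mod_cast h9
    have h10 : (0:ℝ) ≤ ((Finset.univ.filter fun m : G => m ∈ N ∧ ¬ (m ∈ X ↔ m * b₂ ∈ X)).card : ℝ) :=
      Nat.cast_nonneg _
    linarith
  obtain ⟨g, hg1, hg2⟩ := hpart
  have c4 := h.crossings h1 h2 h12 X hX g hg1 hg2
  rw [← hK] at c4
  by_cases hpart' : ∃ g', (∃ x ∈ X, g'⁻¹ * x ∈ K) ∧ (∃ x, x ∉ X ∧ g'⁻¹ * x ∈ K) ∧ g⁻¹ * g' ∉ K
  · obtain ⟨g', hg1', hg2', hgg⟩ := hpart'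
    have c4' := h.crossings h1 h2 h12 X hX g' hg1' hg2'
    rw [← hK] at c4'
    have hdisj : Disjoint
        (Finset.univ.filter fun m : G => g⁻¹ * m ∈ K ∧ m ∈ N ∧ ¬ (m ∈ X ↔ m * b₂ ∈ X))
        (Finset.univ.filter fun m : G => g'⁻¹ * m ∈ K ∧ m ∈ N ∧ ¬ (m ∈ X ↔ m * b₂ ∈ X)) := by
      rw [Finset.disjoint_filter]
      rintro m _ ⟨a1, -⟩ ⟨a2, -⟩
      apply hgg
      have : g⁻¹ * g' = (g⁻¹ * m) * (g'⁻¹ * m)⁻¹ := by group
      rw [this]; exact K.mul_mem a1 (K.inv_mem a2)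
    have hsub : (Finset.univ.filter fun m : G => g⁻¹ * m ∈ K ∧ m ∈ N ∧ ¬ (m ∈ X ↔ m * b₂ ∈ X)) ∪
        (Finset.univ.filter fun m : G => g'⁻¹ * m ∈ K ∧ m ∈ N ∧ ¬ (m ∈ X ↔ m * b₂ ∈ X)) ⊆
        (Finset.univ.filter fun m : G => m ∈ N ∧ ¬ (m ∈ X ↔ m * b₂ ∈ X)) := by
      intro m hm
      rw [Finset.mem_union, Finset.mem_filter, Finset.mem_filter] at hm
      rw [Finset.mem_filter]
      rcases hm with ⟨_, _, hm⟩ | ⟨_, _, hm⟩
      · exact ⟨Finset.mem_univ _, hm⟩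
      · exact ⟨Finset.mem_univ _, hm⟩
    have h5 := Finset.card_le_card hsub
    rw [Finset.card_union_of_disjoint hdisj] at h5
    have h6 : 8 ≤ (Finset.univ.filter fun m : G => m ∈ N ∧ ¬ (m ∈ X ↔ m * b₂ ∈ X)).card := by
      omega
    have h7 : (8:ℝ) ≤ ((Finset.univ.filter fun m : G =>
      m ∈ N ∧ ¬ (m ∈ X ↔ m * b₂ ∈ X)).card : ℝ) := by exact_mod_cast h6
    linarith
  · -- only one coset is split
    push Not at hpart'
    have hsub : (Finset.univ.filter fun m : G => g⁻¹ * m ∈ K ∧ m ∈ N ∧ ¬ (m ∈ X ↔ m * b₂ ∈ X)) ⊆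
        (Finset.univ.filter fun m : G => m ∈ N ∧ ¬ (m ∈ X ↔ m * b₂ ∈ X)) := by
      intro m hm
      rw [Finset.mem_filter] at hm ⊢
      exact ⟨Finset.mem_univ _, hm.2.2⟩
    have h5 := (Nat.le_trans c4 (Finset.card_le_card hsub))
    have h7 : (4:ℝ) ≤ ((Finset.univ.filter fun m : G =>
      m ∈ N ∧ ¬ (m ∈ X ↔ m * b₂ ∈ X)).card : ℝ) := by exact_mod_cast h5
    suffices h8 : 4 ≤ ∑ i, w i * (Nat.card {x : G // x ∈ X ∧ x * c i ∉ X} : ℝ) by linarith
    have f1 := h.four_le h1 h12 X hX g hg1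
    have f2 := h.four_le h1 h12 Xᶜ hXc g (by
      obtain ⟨x, hx, hxK⟩ := hg2
      exact ⟨x, hx, hxK⟩)
    rw [← hK] at f1 f2
    -- the two parts of the coset
    set a := (Finset.univ.filter fun y : G => y ∈ X ∧ g⁻¹ * y ∈ K).card with ha
    set b := (Finset.univ.filter fun y : G => y ∈ Xᶜ ∧ g⁻¹ * y ∈ K).card with hb
    have hab : a + b = Nat.card K := by
      have e1 : Nat.card K = (Finset.univ.filter fun y : G => g⁻¹ * y ∈ K).card := by
        rw [← Fintype.card_subtype, ← Nat.card_eq_fintype_card]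
        apply Nat.card_congr
        exact ((Equiv.mulLeft g⁻¹).subtypeEquiv fun x => Iff.rfl).symm
      rw [e1, ha, hb, ← Finset.card_union_of_disjoint]
      · congr 1
        ext y
        simp only [Finset.mem_union, Finset.mem_filter, Finset.mem_univ, true_and,
          Set.mem_compl_iff]
        tauto
      · rw [Finset.disjoint_filter]
        rintro m _ ⟨a1, -⟩ ⟨a2, -⟩
        exact a2 a1
    by_cases huniv : (X ∪ {x | g⁻¹ * x ∈ K}) = Set.univ
    · have key : ∀ i, (4:ℝ) ≤ (Nat.card {x : G // x ∈ X ∧ x * c i ∉ X} : ℝ) := by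
        intro i
        have h10 : b ≤ Nat.card {x : G // x ∈ X ∧ x * c i ∉ X} := by
          rw [Nat.card_eq_fintype_card, Fintype.card_subtype, hb]
          apply Finset.card_le_card_of_injOn (fun y : G => y * (c i)⁻¹)
          · intro y hy
            rw [Finset.mem_coe, Finset.mem_filter] at hy ⊢
            refine ⟨Finset.mem_univ _, ?_, ?_⟩
            · by_contra hn
              have h11 : y * (c i)⁻¹ ∈ X ∪ {x | g⁻¹ * x ∈ K} := by
                rw [huniv]; exact Set.mem_univ _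
              rcases h11 with h11 | h11
              · exact hn h11
              · apply hc i
                have e1 : c i = (g⁻¹ * (y * (c i)⁻¹))⁻¹ * (g⁻¹ * y) := by group
                rw [e1]
                exact K.mul_mem (K.inv_mem h11) hy.2.2
            · rw [inv_mul_cancel_right]; exact hy.2.1
          · intro x _ y _ hxy
            exact mul_right_cancel hxy
        have f2' : 4 ≤ b := by rw [hb]; convert f2
        have h11 : 4 ≤ Nat.card {x : G // x ∈ X ∧ x * c i ∉ X} := f2'.trans h10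
        exact_mod_cast h11
      have h12 : ∑ i, w i * 4 ≤ ∑ i, w i * (Nat.card {x : G // x ∈ X ∧ x * c i ∉ X} : ℝ) :=
        Finset.sum_le_sum fun i _ => mul_le_mul_of_nonneg_left (key i) (hw i)
      rw [← Finset.sum_mul, hW] at h12
      linarith
    · have h10 := hcutK (X ∪ {x | g⁻¹ * x ∈ K}) ?_ ?_ huniv
      · have key : ∀ i, (Nat.card {x : G // x ∈ (X ∪ {x | g⁻¹ * x ∈ K}) ∧
            x * c i ∉ (X ∪ {x | g⁻¹ * x ∈ K})} : ℝ) ≤
            (Nat.card {x : G // x ∈ X ∧ x * c i ∉ X} : ℝ) + b := by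
          intro i
          have h11 : Nat.card {x : G // x ∈ (X ∪ {x | g⁻¹ * x ∈ K}) ∧
            x * c i ∉ (X ∪ {x | g⁻¹ * x ∈ K})} ≤
            Nat.card {x : G // x ∈ X ∧ x * c i ∉ X} + b := by
            rw [Nat.card_eq_fintype_card, Fintype.card_subtype, Nat.card_eq_fintype_card,
              Fintype.card_subtype, hb]
            refine le_trans (Finset.card_le_card ?_) (Finset.card_union_le _ _)
            intro x hx
            rw [Finset.mem_filter] at hx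
            rw [Finset.mem_union, Finset.mem_filter, Finset.mem_filter]
            obtain ⟨-, hx1, hx2⟩ := hx
            by_cases hxX : x ∈ X
            · left
              exact ⟨Finset.mem_univ _, hxX, fun h' => hx2 (Or.inl h')⟩
            · right
              exact ⟨Finset.mem_univ _, hxX, hx1.resolve_left hxX⟩
          exact_mod_cast h11
        have h12 : ∑ i, w i * (Nat.card {x : G // x ∈ (X ∪ {x | g⁻¹ * x ∈ K}) ∧
            x * c i ∉ (X ∪ {x | g⁻¹ * x ∈ K})} : ℝ) ≤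
            ∑ i, w i * ((Nat.card {x : G // x ∈ X ∧ x * c i ∉ X} : ℝ) + b) :=
          Finset.sum_le_sum fun i _ => mul_le_mul_of_nonneg_left (key i) (hw i)
        simp only [mul_add] at h12
        rw [Finset.sum_add_distrib, ← Finset.sum_mul, hW, one_mul] at h12
        have h13 : (a : ℝ) + b = Nat.card K := by exact_mod_cast hab
        have h14 : (4 : ℝ) ≤ a := by exact_mod_cast f1
        linarith
      · rintro x (hx | hx) y hy
        · by_contra hn
          rw [Set.mem_union, not_or] at hn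
          have := hpart' x ⟨x, hx, by rw [inv_mul_cancel]; exact K.one_mem⟩
            ⟨x * y, hn.1, by rw [inv_mul_cancel_left]; exact hy⟩
          apply hn.2
          change g⁻¹ * (x * y) ∈ K
          rw [← mul_assoc]; exact K.mul_mem this hy
        · right
          change g⁻¹ * (x * y) ∈ K
          rw [← mul_assoc]; exact K.mul_mem hx hy
      · obtain ⟨x, hx⟩ := hX1
        exact ⟨x, Or.inl hx⟩

open Classical in
/-- the spanning matching -/
theorem TN.spans [Fintype G] (h1 : orderOf b₁ = 3) (h2 : orderOf b₂ = 3)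
    (h12 : b₂ ∉ Subgroup.zpowers b₁) (h : TN b₁ b₂ N σ) (A : Set G) (hA : ∀ x ∈ A, x⁻¹ ∈ A)
    (hb2 : b₂ ∈ A) (hgen : Subgroup.closure A = ⊤) (D : Set G) (hDN : D ⊆ N)
    (hD : ∀ n ∈ D, ∀ n' ∈ D, σ.SameCycle n n' → n = n') :
    ∃ M, Spans (Equiv.Perm.SameCycle.setoid σ)
      (fun u v => ∃ x y, proj σ D x = u ∧ proj σ D y = v ∧ x⁻¹ * y ∈ A) M := by
  by_cases hK : Subgroup.closure ({b₁, b₂} : Set G) = ⊤
  · refine spans_aux h1 h2 h12 h A hA hb2 D hDN hD 0 (fun i => i.elim0) (fun i => i.elim0)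
      (fun i => i.elim0) (fun i => i.elim0) 0 (by simp) (by norm_num) ?_
    intro X hX hX1 hX2
    obtain ⟨x, hx⟩ := hX1
    obtain ⟨y, hy⟩ := (Set.ne_univ_iff_exists_notMem X).1 hX2
    have c4 := h.crossings h1 h2 h12 X hX 1 ⟨x, hx, by rw [hK]; exact Subgroup.mem_top _⟩
      ⟨y, hy, by rw [hK]; exact Subgroup.mem_top _⟩
    have hsub : (Finset.univ.filter fun m : G => (1:G)⁻¹ * m ∈
        Subgroup.closure ({b₁, b₂} : Set G) ∧ m ∈ N ∧ ¬ (m ∈ X ↔ m * b₂ ∈ X)) ⊆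
        (Finset.univ.filter fun m : G => m ∈ N ∧ ¬ (m ∈ X ↔ m * b₂ ∈ X)) := by
      intro m hm
      rw [Finset.mem_filter] at hm ⊢
      exact ⟨Finset.mem_univ _, hm.2.2⟩
    have h5 := (Nat.le_trans c4 (Finset.card_le_card hsub))
    have h7 : (4:ℝ) ≤ ((Finset.univ.filter fun m : G =>
      m ∈ N ∧ ¬ (m ∈ X ↔ m * b₂ ∈ X)).card : ℝ) := by exact_mod_cast h5
    have h8 : (0:ℝ) ≤ ∑ i : Fin 0, (fun i : Fin 0 => (i.elim0 : ℝ)) i *
      (Nat.card {x : G // x ∈ X ∧ x * (fun i : Fin 0 => (i.elim0 : G)) i ∉ X} : ℝ) := by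
      simp
    linarith
  · obtain ⟨k, c, w, hcC, hw0, hw1, hcut⟩ := Pool.Agent.N342.CayB.cut
      (Subgroup.closure ({b₁, b₂} : Set G)) (A \ Subgroup.closure ({b₁, b₂} : Set G)) (by
        rw [eq_top_iff, ← hgen]
        apply Subgroup.closure_mono
        intro x hx
        by_cases hxK : x ∈ Subgroup.closure ({b₁, b₂} : Set G)
        · exact Or.inl hxK
        · exact Or.inr ⟨hx, hxK⟩) hK
    refine spans_aux h1 h2 h12 h A hA hb2 D hDN hD k c w (fun i => (hcC i).1) hw0 1 hw1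
      le_rfl ?_
    intro X hX hX1 hX2
    have := h.cut h1 h2 h12 k c w (fun i => (hcC i).2) hw0 hw1 hcut X hX hX1 hX2
    linarith

end

end Pool.Agent.H151.TW
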