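import Pool.Agent.H151.TW.Pre

/-!
The cycles of the double cover: alternating vertical and lifted steps.
-/

namespace Pool.Agent.H151.TW

universe u

section

variable {G Q : Type u} [Group G] [Group Q] {π : G →* Q} {z : G}

theorem exists_phi [Finite G] [Finite Q] (h : Dbl π z) {A : Set G} (hzA : z ∈ A) {b₁ b₂ : G}
    (hb₁ : b₁ ∈ A) (hb₁' : b₁⁻¹ ∈ A) (h1' : orderOf (π b₁) = 3)
    (h12 : π b₂ ∉ Subgroup.zpowers (π b₁)) {N : Set Q}
    {σ : Equiv.Perm Q} (hT : TN (π b₁) (π b₂) N σ) {D : Set Q} {σ' : Equiv.Perm Q} {t : Q → G}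
    {a : G → Bool} (hDN : D ⊆ N) (hP : Pre A π z σ D σ' t a) (δ : Q → G)
    (hδ : ∀ n ∈ D, δ n = b₁ ∨ δ n = b₁⁻¹) :
    ∃ Φ : Equiv.Perm G, (∀ x, x⁻¹ * Φ x ∈ A) ∧ (∀ x, Φ (Φ x) ≠ x) ∧
      (∀ x y, Φ.SameCycle x y ↔ σ.SameCycle (π x) (π y)) ∧
      ∀ v, (∀ n ∈ D, v ≠ n * π (δ n)) → ∃ x, π x = v ∧ Φ x = x * z := by
  classical
  obtain ⟨p1, p2, p3, p4⟩ := order3 h1'
  obtain ⟨ν, μ, hν1, hν2, -, -, hν5, hν6⟩ := exists_flip h1' N hT.t1
  -- the hosts
  have hδA : ∀ n ∈ D, δ n ∈ A ∧ (δ n)⁻¹ ∈ A := by
    intro n hn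
    rcases hδ n hn with h' | h'
    · rw [h']; exact ⟨hb₁, hb₁'⟩
    · rw [h', inv_inv]; exact ⟨hb₁', hb₁⟩
  have hhost : ∀ n ∈ D, n * π (δ n) ∉ D ∧ ν (n * π (δ n)) = n ∧ n * π (δ n) ≠ n := by
    intro n hn
    obtain ⟨d1, d2, d3, d4, d5, d6⟩ := hν5 n (hDN hn)
    rcases hδ n hn with h' | h'
    · rw [h']
      exact ⟨fun h'' => d1 (hDN h''), d5, fun h'' => p1 (mul_eq_left.1 h'')⟩
    · rw [h', map_inv]
      exact ⟨fun h'' => d2 (hDN h''), d6, fun h'' => p1 (inv_eq_one.1 (mul_eq_left.1 h''))⟩
  let hst : Q → Prop := fun v => ∃ n ∈ D, v = n * π (δ n)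
  have hstν : ∀ v, hst v → ν v ∈ D ∧ v = ν v * π (δ (ν v)) := by
    rintro v ⟨n, hn, rfl⟩
    rw [(hhost n hn).2.1]
    exact ⟨hn, rfl⟩
  have hσ'D : ∀ v, v ∉ D → σ' v ∉ D := by
    intro v hv h'
    have e3 := hP.fix _ h'
    have e4 := σ'.injective e3
    rw [e4] at h'
    exact hv h'
  have hσv : ∀ v, σ v ≠ v := by
    intro v h'
    exact hT.step2 h1' h12 v (by rw [h', h'])
  have hσ'v : ∀ v, v ∉ D → σ' v ≠ v := by
    intro v hv
    by_cases hv' : σ v ∈ D
    · have e1 := hP.skip _ hv'
      rw [Equiv.symm_apply_apply] at e1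
      rw [e1]
      exact hT.step2 h1' h12 v
    · rw [hP.other v hv hv']; exact hσv v
  let τ : Equiv.Perm G := liftP σ' t π hP.step
  have hτ : ∀ x, τ x = x * t (π x) := fun x => rfl
  have hτπ : ∀ x, π (τ x) = σ' (π x) := fun x => map_liftP σ' t hP.step x
  let F : G → G := fun y => if π y ∈ D then (if a (y * δ (π y)) = true then y * z
      else y * δ (π y)) else if a y = true then (if hst (π y) then y * (δ (ν (π y)))⁻¹
      else y * z) else τ y
  let F' : G → G := fun w => if π w ∈ D then (if a (w * δ (π w)) = true then w * δ (π w)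
      else w * z) else if a w = true then τ.symm w
      else if hst (π w) then w * (δ (ν (π w)))⁻¹ else w * z
  -- rules
  have F1 : ∀ y, π y ∈ D → a (y * δ (π y)) = true → F y = y * z := by
    intro y c1 c2; simp only [F]; rw [if_pos c1, if_pos c2]
  have F2 : ∀ y, π y ∈ D → a (y * δ (π y)) = false → F y = y * δ (π y) := by
    intro y c1 c2; simp only [F]; rw [if_pos c1, if_neg (by rw [c2]; simp)]
  have F3 : ∀ y, π y ∉ D → a y = true → hst (π y) → F y = y * (δ (ν (π y)))⁻¹ := by
    intro y c1 c2 c3; simp only [F]; rw [if_neg c1, if_pos c2, if_pos c3]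
  have F4 : ∀ y, π y ∉ D → a y = true → ¬ hst (π y) → F y = y * z := by
    intro y c1 c2 c3; simp only [F]; rw [if_neg c1, if_pos c2, if_neg c3]
  have F5 : ∀ y, π y ∉ D → a y = false → F y = τ y := by
    intro y c1 c2; simp only [F]; rw [if_neg c1, if_neg (by rw [c2]; simp)]
  have F1' : ∀ y, π y ∈ D → a (y * δ (π y)) = true → F' y = y * δ (π y) := by
    intro y c1 c2; simp only [F']; rw [if_pos c1, if_pos c2]
  have F2' : ∀ y, π y ∈ D → a (y * δ (π y)) = false → F' y = y * z := by
    intro y c1 c2; simp only [F']; rw [if_pos c1, if_neg (by rw [c2]; simp)]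
  have F3' : ∀ y, π y ∉ D → a y = true → F' y = τ.symm y := by
    intro y c1 c2; simp only [F']; rw [if_neg c1, if_pos c2]
  have F4' : ∀ y, π y ∉ D → a y = false → hst (π y) → F' y = y * (δ (ν (π y)))⁻¹ := by
    intro y c1 c2 c3; simp only [F']; rw [if_neg c1, if_neg (by rw [c2]; simp), if_pos c3]
  have F5' : ∀ y, π y ∉ D → a y = false → ¬ hst (π y) → F' y = y * z := by
    intro y c1 c2 c3; simp only [F']; rw [if_neg c1, if_neg (by rw [c2]; simp), if_neg c3]
  -- facts about lifts of `D` and of hosts
  have hDlift : ∀ y, π y ∈ D → π (y * δ (π y)) ∉ D ∧ hst (π (y * δ (π y))) ∧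
      ν (π (y * δ (π y))) = π y := by
    intro y hy
    rw [map_mul]
    obtain ⟨q1, q2, q3⟩ := hhost (π y) hy
    exact ⟨q1, ⟨π y, hy, rfl⟩, q2⟩
  have hDz : ∀ y, π y ∈ D → a (y * z * δ (π (y * z))) = !a (y * δ (π y)) := by
    intro y hy
    rw [h.map_z, mul_assoc, ← h.comm, ← mul_assoc, hP.az _ (hDlift y hy).1]
  have hhlift : ∀ y, hst (π y) → π (y * (δ (ν (π y)))⁻¹) = ν (π y) ∧
      π (y * (δ (ν (π y)))⁻¹) ∈ D := by
    intro y hy
    obtain ⟨q1, q2⟩ := hstν _ hy
    have e1 : π (y * (δ (ν (π y)))⁻¹) = ν (π y) := by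
      rw [map_mul, map_inv, mul_inv_eq_iff_eq_mul]
      exact q2
    exact ⟨e1, by rw [e1]; exact q1⟩
  have hat : ∀ y, π y ∉ D → a (τ y) = !a y := by
    intro y hy; rw [hτ]; exact hP.at' y hy
  have hinv : Function.LeftInverse F' F := by
    intro y
    by_cases c1 : π y ∈ D
    · cases c2 : a (y * δ (π y)) with
      | true =>
        rw [F1 y c1 c2, F2' _ (by rw [h.map_z]; exact c1) (by rw [hDz y c1, c2]; rfl), h.zz]
      | false =>
        obtain ⟨q1, q2, q3⟩ := hDlift y c1
        rw [F2 y c1 c2, F4' _ q1 c2 q2, q3, mul_inv_cancel_right]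
    · cases c2 : a y with
      | true =>
        by_cases c3 : hst (π y)
        · obtain ⟨q1, q2⟩ := hhlift y c3
          rw [F3 y c1 c2 c3, F1' _ q2 (by rw [q1, inv_mul_cancel_right]; exact c2), q1,
            inv_mul_cancel_right]
        · rw [F4 y c1 c2 c3, F5' _ (by rw [h.map_z]; exact c1) (by rw [hP.az y c1, c2]; rfl)
            (by rw [h.map_z]; exact c3), h.zz]
      | false =>
        rw [F5 y c1 c2, F3' _ (by rw [hτπ]; exact hσ'D _ c1) (by rw [hat y c1, c2]; rfl),
          Equiv.symm_apply_apply]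
  let Φ : Equiv.Perm G := Equiv.ofBijective F (Finite.injective_iff_bijective.1 hinv.injective)
  have hΦ : ∀ y, Φ y = F y := fun y => rfl
  refine ⟨Φ, ?_, ?_, ?_, ?_⟩
  · intro y
    rw [hΦ]
    by_cases c1 : π y ∈ D
    · cases c2 : a (y * δ (π y)) with
      | true => rw [F1 y c1 c2, inv_mul_cancel_left]; exact hzA
      | false => rw [F2 y c1 c2, inv_mul_cancel_left]; exact (hδA _ c1).1
    · cases c2 : a y with
      | true =>
        by_cases c3 : hst (π y)
        · rw [F3 y c1 c2 c3, inv_mul_cancel_left]; exact (hδA _ (hstν _ c3).1).2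
        · rw [F4 y c1 c2 c3, inv_mul_cancel_left]; exact hzA
      | false => rw [F5 y c1 c2, hτ, inv_mul_cancel_left]; exact hP.mem _ c1
  · intro y hy
    rw [hΦ, hΦ] at hy
    by_cases c1 : π y ∈ D
    · obtain ⟨q1, q2, q3⟩ := hDlift y c1
      cases c2 : a (y * δ (π y)) with
      | true =>
        have c1' : π (y * z) ∈ D := by rw [h.map_z]; exact c1
        rw [F1 y c1 c2, F2 _ c1' (by rw [hDz y c1, c2]; rfl)] at hy
        have := congrArg π hy
        rw [map_mul, h.map_z] at this
        exact (hhost _ c1).2.2 this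
      | false =>
        rw [F2 y c1 c2, F5 _ q1 c2] at hy
        have := congrArg π hy
        rw [hτπ] at this
        exact hσ'D _ q1 (by rw [this]; exact c1)
    · cases c2 : a y with
      | true =>
        by_cases c3 : hst (π y)
        · obtain ⟨q1, q2⟩ := hhlift y c3
          rw [F3 y c1 c2 c3, F1 _ q2 (by rw [q1, inv_mul_cancel_right]; exact c2)] at hy
          have := congrArg π hy
          rw [h.map_z] at this
          rw [this] at q2
          exact c1 q2
        · have c1' : π (y * z) ∉ D := by rw [h.map_z]; exact c1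
          rw [F4 y c1 c2 c3, F5 _ c1' (by rw [hP.az y c1, c2]; rfl)] at hy
          have := congrArg π hy
          rw [hτπ, h.map_z] at this
          exact hσ'v _ c1 this
      | false =>
        have c1' : π (τ y) ∉ D := by rw [hτπ]; exact hσ'D _ c1
        have c2' : a (τ y) = true := by rw [hat y c1, c2]; rfl
        rw [F5 y c1 c2] at hy
        by_cases c3 : hst (π (τ y))
        · obtain ⟨q1, q2⟩ := hhlift _ c3
          rw [F3 _ c1' c2' c3] at hy
          rw [hy] at q2
          exact c1 q2
        · rw [F4 _ c1' c2' c3] at hy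
          have := congrArg π hy
          rw [h.map_z, hτπ] at this
          exact hσ'v _ c1 this
  · -- the cycles
    have hcoset : ∀ n ∈ D, σ.SameCycle n (n * π (δ n)) := by
      intro n hn
      refine hT.same_coset h1' _ _ ?_
      rw [inv_mul_cancel_left]
      rcases hδ n hn with h' | h'
      · rw [h']; exact Subgroup.mem_zpowers _
      · rw [h', map_inv]; exact Subgroup.inv_mem _ (Subgroup.mem_zpowers _)
    have hσσ' : ∀ v, v ∉ D → σ.SameCycle v (σ' v) := by
      intro v hv
      by_cases hv' : σ v ∈ D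
      · have e1 := hP.skip _ hv'
        rw [Equiv.symm_apply_apply] at e1
        rw [e1]
        exact (same_apply v).trans (same_apply _)
      · rw [hP.other v hv hv']; exact same_apply v
    have hone : ∀ y, σ.SameCycle (π y) (π (Φ y)) := by
      intro y
      rw [hΦ]
      by_cases c1 : π y ∈ D
      · cases c2 : a (y * δ (π y)) with
        | true => rw [F1 y c1 c2, h.map_z]
        | false => rw [F2 y c1 c2, map_mul]; exact hcoset _ c1
      · cases c2 : a y with
        | true =>
          by_cases c3 : hst (π y)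
          · obtain ⟨q1, q2⟩ := hhlift y c3
            obtain ⟨r1, r2⟩ := hstν _ c3
            rw [F3 y c1 c2 c3, q1]
            have := hcoset _ r1
            rw [← r2] at this
            exact this.symm
          · rw [F4 y c1 c2 c3, h.map_z]
        | false => rw [F5 y c1 c2, hτπ]; exact hσσ' _ c1
    -- vertical pairs are in the same cycle
    have hV : ∀ y, Φ.SameCycle y (y * z) := by
      have hV1 : ∀ y, π y ∈ D → a (y * δ (π y)) = true → Φ.SameCycle y (y * z) := by
        intro y c1 c2
        have := same_apply (σ := Φ) y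
        rw [hΦ, F1 y c1 c2] at this
        exact this
      have hV2 : ∀ y, π y ∉ D → a y = true → Φ.SameCycle y (y * z) := by
        intro y c1 c2
        by_cases c3 : hst (π y)
        · obtain ⟨q1, q2⟩ := hhlift y c3
          have s1 := same_apply (σ := Φ) y
          rw [hΦ, F3 y c1 c2 c3] at s1
          have c4 : a (y * (δ (ν (π y)))⁻¹ * δ (π (y * (δ (ν (π y)))⁻¹))) = true := by
            rw [q1, inv_mul_cancel_right]; exact c2
          have s2 := hV1 _ q2 c4
          have s3 := same_apply (σ := Φ) (y * (δ (ν (π y)))⁻¹ * z)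
          have q2' : π (y * (δ (ν (π y)))⁻¹ * z) ∈ D := by rw [h.map_z]; exact q2
          rw [hΦ, F2 _ q2' (by rw [hDz _ q2, c4]; rfl), h.map_z, q1, mul_assoc _ z, ← h.comm,
            ← mul_assoc, inv_mul_cancel_right] at s3
          exact (s1.trans s2).trans s3
        · have := same_apply (σ := Φ) y
          rw [hΦ, F4 y c1 c2 c3] at this
          exact this
      intro y
      by_cases c1 : π y ∈ D
      · cases c2 : a (y * δ (π y)) with
        | true => exact hV1 y c1 c2
        | false =>
          have := hV1 (y * z) (by rw [h.map_z]; exact c1) (by rw [hDz y c1, c2]; rfl)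
          rw [h.zz] at this
          exact this.symm
      · cases c2 : a y with
        | true => exact hV2 y c1 c2
        | false =>
          have := hV2 (y * z) (by rw [h.map_z]; exact c1) (by rw [hP.az y c1, c2]; rfl)
          rw [h.zz] at this
          exact this.symm
    have hlift : ∀ x y, π x = π y → Φ.SameCycle x y := by
      intro x y hxy
      rcases (h.ker x y).1 hxy with h' | h'
      · rw [h']
      · rw [h']; exact hV x
    -- connections over `Q`
    let C : Q → Q → Prop := fun v w => ∀ x y, π x = v → π y = w → Φ.SameCycle x y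
    have Csymm : ∀ v w, C v w → C w v := fun v w hvw x y hx hy => (hvw y x hy hx).symm
    have Ctrans : ∀ u v w, C u v → C v w → C u w := by
      intro u v w huv hvw x y hx hy
      obtain ⟨y', hy'⟩ := h.surj v
      exact (huv x y' hx hy').trans (hvw y' y hy' hy)
    have C1 : ∀ v, v ∉ D → C v (σ' v) := by
      intro v hv x y hx hy
      have key : ∀ x', π x' = v → a x' = false → Φ.SameCycle x' y := by
        intro x' hx' ha'
        have s1 := same_apply (σ := Φ) x'
        rw [hΦ, F5 x' (by rw [hx']; exact hv) ha'] at s1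
        exact s1.trans (hlift _ _ (by rw [hτπ, hx', hy]))
      cases c2 : a x with
      | false => exact key x hx c2
      | true =>
        have c3 : a (x * z) = false := by
          rw [hP.az x (by rw [hx]; exact hv), c2]; rfl
        exact (hV x).trans (key (x * z) (by rw [h.map_z]; exact hx) c3)
    have C2 : ∀ n ∈ D, C n (n * π (δ n)) := by
      intro n hn x y hx hy
      have hxD : π x ∈ D := by rw [hx]; exact hn
      have key : ∀ x', π x' = n → a (x' * δ (π x')) = false → Φ.SameCycle x' y := by
        intro x' hx' ha'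
        have s1 := same_apply (σ := Φ) x'
        rw [hΦ, F2 x' (by rw [hx']; exact hn) ha'] at s1
        exact s1.trans (hlift _ _ (by rw [map_mul, hx', hy]))
      cases c2 : a (x * δ (π x)) with
      | false => exact key x hx c2
      | true =>
        have c3 : a (x * z * δ (π (x * z))) = false := by
          rw [hDz x hxD, c2]; rfl
        exact (hV x).trans (key (x * z) (by rw [h.map_z]; exact hx) c3)
    -- the host is one of the neighbours on `σ`
    have hnb : ∀ n ∈ D, n * π (δ n) = σ n ∨ n * π (δ n) = σ.symm n := by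
      intro n hn
      obtain ⟨e, he, e1, e2, -⟩ := hT.atN n (hDN hn)
      have hsym : σ.symm n = n * e⁻¹ := by rw [Equiv.symm_apply_eq, e2]
      rw [e1, hsym]
      rcases hδ n hn with h' | h' <;> rcases he with h'' | h'' <;> rw [h', h'']
      · left; rfl
      · right; rw [inv_inv]
      · right; rw [map_inv]
      · left; rw [map_inv]
    have C3 : ∀ n ∈ D, C n (σ n) ∧ C (σ.symm n) n := by
      intro n hn
      have hs : σ.symm n ∉ D := by
        intro h'
        exact (hT.not_mem h1' (hDN hn)).2 (hDN h')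
      have k1 := C1 _ hs
      rw [hP.skip n hn] at k1
      have k2 := C2 n hn
      rcases hnb n hn with h' | h'
      · rw [h'] at k2
        exact ⟨k2, Ctrans _ _ _ k1 (Csymm _ _ k2)⟩
      · rw [h'] at k2
        exact ⟨Ctrans _ _ _ k2 k1, Csymm _ _ k2⟩
    have C4 : ∀ v, C v (σ v) := by
      intro v
      by_cases hv : v ∈ D
      · exact (C3 v hv).1
      · by_cases hv' : σ v ∈ D
        · have := (C3 _ hv').2
          rw [Equiv.symm_apply_apply] at this
          exact this
        · have := C1 v hv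
          rw [hP.other v hv hv'] at this
          exact this
    intro x y
    constructor
    · intro hxy
      obtain ⟨k, hk⟩ := hxy.exists_nat_pow_eq
      rw [← Equiv.Perm.iterate_eq_pow] at hk
      rw [← hk]
      clear hk hxy
      induction k with
      | zero => exact Equiv.Perm.SameCycle.refl _ _
      | succ k ih =>
        rw [Function.iterate_succ_apply']
        exact ih.trans (hone _)
    · intro hxy
      obtain ⟨k, hk⟩ := hxy.exists_nat_pow_eq
      rw [← Equiv.Perm.iterate_eq_pow] at hk
      have key : ∀ k : ℕ, C (π x) (σ^[k] (π x)) := by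
        intro k
        induction k with
        | zero => exact fun x' y' hx' hy' => hlift _ _ (by rw [hx', hy']; rfl)
        | succ k ih =>
          rw [Function.iterate_succ_apply']
          exact Ctrans _ _ _ ih (C4 _)
      exact key k x y rfl hk.symm
  · intro v hv
    obtain ⟨x, hx⟩ := h.surj v
    by_cases c1 : v ∈ D
    · have c1' : π x ∈ D := by rw [hx]; exact c1
      cases c2 : a (x * δ (π x)) with
      | true => exact ⟨x, hx, by rw [hΦ, F1 x c1' c2]⟩
      | false =>
        refine ⟨x * z, by rw [h.map_z]; exact hx, ?_⟩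
        rw [hΦ, F1 _ (by rw [h.map_z]; exact c1') (by rw [hDz x c1', c2]; rfl)]
    · have c1' : π x ∉ D := by rw [hx]; exact c1
      have c3 : ¬ hst (π x) := by
        rintro ⟨n, hn, hn'⟩
        exact hv n hn (by rw [← hx]; exact hn')
      cases c2 : a x with
      | true => exact ⟨x, hx, by rw [hΦ, F4 x c1' c2 c3]⟩
      | false =>
        refine ⟨x * z, by rw [h.map_z]; exact hx, ?_⟩
        rw [hΦ, F4 _ (by rw [h.map_z]; exact c1') (by rw [hP.az x c1', c2]; rfl)
          (by rw [h.map_z]; exact c3)]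

end

end Pool.Agent.H151.TW
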