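import Pool.Agent.H151.TW.Double

/-!
The colouring of the lifts by directions.
-/

namespace Pool.Agent.H151.TW

universe u

/-- The permutation `σ'` skips the elements of `D`, and the colouring `a` of the lifts changes
along the vertical steps and along the lifted steps of `σ'`. -/
structure Pre {G Q : Type u} [Group G] [Group Q] (A : Set G) (π : G →* Q) (z : G)
    (σ : Equiv.Perm Q) (D : Set Q) (σ' : Equiv.Perm Q) (t : Q → G) (a : G → Bool) : Prop where
  step : ∀ v, σ' v = v * π (t v)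
  mem : ∀ v, v ∉ D → t v ∈ A
  fix : ∀ v ∈ D, σ' v = v
  skip : ∀ n ∈ D, σ' (σ.symm n) = σ n
  other : ∀ v, v ∉ D → σ v ∉ D → σ' v = σ v
  az : ∀ x, π x ∉ D → a (x * z) = !a x
  at' : ∀ x, π x ∉ D → a (x * t (π x)) = !a x

section

variable {G Q : Type u} [Group G] [Group Q] {π : G →* Q} {z : G}

theorem exists_pre [Finite G] [Finite Q] (h : Dbl π z) {A : Set G} {b₁ b₂ : G} (hb₁ : b₁ ∈ A)
    (hb₁' : b₁⁻¹ ∈ A) (hb₂ : b₂ ∈ A) (hb₂' : b₂⁻¹ ∈ A) (h1 : orderOf b₁ = 3)
    (h1' : orderOf (π b₁) = 3) (h12 : π b₂ ∉ Subgroup.zpowers (π b₁)) {N : Set Q}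
    {σ : Equiv.Perm Q} (hT : TN (π b₁) (π b₂) N σ) :
    ∃ (D : Set Q) (σ' : Equiv.Perm Q) (t : Q → G) (a : G → Bool), D ⊆ N ∧
      (∀ n ∈ D, ∀ n' ∈ D, σ.SameCycle n n' → n = n') ∧ Pre A π z σ D σ' t a := by
  classical
  obtain ⟨o1, o2, o3, o4⟩ := order3 h1
  obtain ⟨p1, p2, p3, p4⟩ := order3 h1'
  -- the lifted steps
  have hstep : ∀ v, ∃ s : G, (s = b₁ ∨ s = b₁⁻¹ ∨ s = b₂ ∨ s = b₂⁻¹) ∧ σ v = v * π s := by
    intro v
    rcases hT.step h1' v with h' | h' | h' | h'
    · exact ⟨b₁, Or.inl rfl, by rw [← h', mul_inv_cancel_left]⟩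
    · exact ⟨b₁⁻¹, Or.inr (Or.inl rfl), by rw [map_inv, ← h', mul_inv_cancel_left]⟩
    · exact ⟨b₂, Or.inr (Or.inr (Or.inl rfl)), by rw [← h', mul_inv_cancel_left]⟩
    · exact ⟨b₂⁻¹, Or.inr (Or.inr (Or.inr rfl)), by rw [map_inv, ← h', mul_inv_cancel_left]⟩
  choose s hs1 hs2 using hstep
  have hsA : ∀ v, s v ∈ A := by
    intro v
    rcases hs1 v with h' | h' | h' | h' <;> rw [h'] <;> assumption
  -- steps at `N`
  have huniq : ∀ v e, (e = b₁ ∨ e = b₁⁻¹) → σ v = v * π e → s v = e := by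
    intro v e he hv
    have e1 : π (s v) = π e := mul_left_cancel ((hs2 v).symm.trans hv)
    have heZ : π e ∈ Subgroup.zpowers (π b₁) := by
      rcases he with rfl | rfl
      · exact Subgroup.mem_zpowers _
      · rw [map_inv]; exact Subgroup.inv_mem _ (Subgroup.mem_zpowers _)
    rcases hs1 v with h' | h' | h' | h'
    · rcases he with rfl | rfl
      · exact h'
      · rw [h', map_inv] at e1
        exact absurd e1.symm p4
    · rcases he with rfl | rfl
      · rw [h', map_inv] at e1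
        exact absurd e1 p4
      · exact h'
    · rw [h'] at e1
      exact absurd (e1 ▸ heZ) h12
    · rw [h', map_inv] at e1
      exact absurd (inv_mem_iff.1 (e1 ▸ heZ)) h12
  have hsN : ∀ n ∈ N, (s n = b₁ ∨ s n = b₁⁻¹) ∧ s (σ.symm n) = s n := by
    intro n hn
    obtain ⟨e, he, e1, e2, -⟩ := hT.atN n hn
    have hsym : σ.symm n = n * e⁻¹ := by rw [Equiv.symm_apply_eq, e2]
    obtain ⟨e', he', hee⟩ : ∃ e' : G, (e' = b₁ ∨ e' = b₁⁻¹) ∧ π e' = e := by
      rcases he with rfl | rfl
      · exact ⟨b₁, Or.inl rfl, rfl⟩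
      · exact ⟨b₁⁻¹, Or.inr rfl, map_inv _ _⟩
    have f1 : s n = e' := huniq n e' he' (by rw [hee]; exact e1)
    have f2 : s (σ.symm n) = e' := huniq _ e' he' (by
      rw [Equiv.apply_symm_apply, hee, hsym, inv_mul_cancel_right])
    rw [f1, f2]
    exact ⟨he', rfl⟩
  -- the lift with vertical steps
  have hsz : ∀ v, σ v = v * π (s v * z) := by
    intro v; rw [h.map_z]; exact hs2 v
  let ρ : Equiv.Perm G := liftP σ (fun v => s v * z) π hsz
  have hρ : ∀ x, π (ρ x) = σ (π x) := fun x => map_liftP σ _ hsz x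
  have hρz : ∀ x, ρ (x * z) = ρ x * z := fun x => liftP_z h σ _ hsz x
  -- the exceptional elements
  let S : Setoid Q := Equiv.Perm.SameCycle.setoid σ
  have hrep : ∀ q : Quotient S, ∃ n ∈ N, (Quotient.mk S n) = q := by
    intro q
    induction q using Quotient.inductionOn with | _ v
    obtain ⟨n, ⟨hn, hv⟩, -⟩ := hT.t1 v
    exact ⟨n, hn, Quotient.sound (hT.same_coset h1' _ _ hv).symm⟩
  choose rep hrepN hrepq using hrep
  let D : Set Q := {n | ∃ x : G, ρ.SameCycle x (x * z) ∧ n = rep (Quotient.mk S (π x))}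
  have hDN : D ⊆ N := by
    rintro n ⟨x, _, rfl⟩
    exact hrepN _
  have hD2 : ∀ n ∈ D, ∀ n' ∈ D, σ.SameCycle n n' → n = n' := by
    rintro n ⟨x, _, hx⟩ n' ⟨x', _, hx'⟩ hnn
    have e1 : Quotient.mk S n = Quotient.mk S n' := Quotient.sound hnn
    rw [hx, hx', hrepq, hrepq] at e1
    rw [hx, hx', e1]
  have hD3 : ∀ x : G, ρ.SameCycle x (x * z) → ∃ n ∈ D, σ.SameCycle (π x) n := by
    intro x hx
    refine ⟨_, ⟨x, hx, rfl⟩, ?_⟩
    exact (Quotient.exact (hrepq (Quotient.mk S (π x)))).symm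
  have hD4 : ∀ n ∈ D, ∃ x : G, σ.SameCycle (π x) n ∧ ρ.SameCycle x (x * z) := by
    rintro n ⟨x, hx, rfl⟩
    exact ⟨x, (Quotient.exact (hrepq (Quotient.mk S (π x)))).symm, hx⟩
  -- the permutation `σ'`
  have hsymD : ∀ n ∈ D, σ.symm n ∉ D := fun n hn hn' => (hT.not_mem h1' (hDN hn)).2 (hDN hn')
  have happD : ∀ n ∈ D, σ n ∉ D := fun n hn hn' => (hT.not_mem h1' (hDN hn)).1 (hDN hn')
  let th : Q → Q := fun v => if v ∈ D then σ.symm v else if σ v ∈ D then σ v else v
  have hth : Function.Involutive th := by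
    intro v
    by_cases hv : v ∈ D
    · have e1 : th v = σ.symm v := if_pos hv
      rw [e1]
      have e2 : th (σ.symm v) = σ (σ.symm v) := by
        simp only [th]
        rw [if_neg (hsymD v hv), if_pos (by rw [Equiv.apply_symm_apply]; exact hv)]
      rw [e2, Equiv.apply_symm_apply]
    · by_cases hv' : σ v ∈ D
      · have e1 : th v = σ v := by simp only [th]; rw [if_neg hv, if_pos hv']
        rw [e1]
        have e2 : th (σ v) = σ.symm (σ v) := if_pos hv'
        rw [e2, Equiv.symm_apply_apply]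
      · have e1 : th v = v := by simp only [th]; rw [if_neg hv, if_neg hv']
        rw [e1, e1]
  let σ' : Equiv.Perm Q := σ * hth.toPerm
  have k1 : ∀ v ∈ D, σ' v = v := by
    intro v hv
    change σ (th v) = v
    have e1 : th v = σ.symm v := if_pos hv
    rw [e1, Equiv.apply_symm_apply]
  have k2 : ∀ v, v ∉ D → σ v ∈ D → σ' v = σ (σ v) := by
    intro v hv hv'
    change σ (th v) = _
    have e1 : th v = σ v := by simp only [th]; rw [if_neg hv, if_pos hv']
    rw [e1]
  have k3 : ∀ v, v ∉ D → σ v ∉ D → σ' v = σ v := by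
    intro v hv hv'
    change σ (th v) = _
    have e1 : th v = v := by simp only [th]; rw [if_neg hv, if_neg hv']
    rw [e1]
  let t : Q → G := fun v => if v ∈ D then 1 else if σ v ∈ D then s v * s (σ v) else s v
  have t1 : ∀ v ∈ D, t v = 1 := fun v hv => if_pos hv
  have t2 : ∀ v, v ∉ D → σ v ∈ D → t v = s v * s (σ v) := by
    intro v hv hv'
    simp only [t]; rw [if_neg hv, if_pos hv']
  have t3 : ∀ v, v ∉ D → σ v ∉ D → t v = s v := by
    intro v hv hv'
    simp only [t]; rw [if_neg hv, if_neg hv']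
  have ht : ∀ v, σ' v = v * π (t v) := by
    intro v
    by_cases hv : v ∈ D
    · rw [k1 v hv, t1 v hv, map_one, mul_one]
    · by_cases hv' : σ v ∈ D
      · rw [k2 v hv hv', t2 v hv hv', map_mul, ← mul_assoc, ← hs2, ← hs2]
      · rw [k3 v hv hv', t3 v hv hv', ← hs2]
  have htA : ∀ v, v ∉ D → t v ∈ A := by
    intro v hv
    by_cases hv' : σ v ∈ D
    · rw [t2 v hv hv']
      obtain ⟨q1, q2⟩ := hsN (σ v) (hDN hv')
      rw [Equiv.symm_apply_apply] at q2
      rw [q2]
      rcases q1 with q1 | q1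
      · rw [q1, o2]; exact hb₁'
      · rw [q1, o3]; exact hb₁
    · rw [t3 v hv hv']; exact hsA v
  have htz : ∀ v, σ' v = v * π (t v * z) := by
    intro v; rw [h.map_z]; exact ht v
  let ρ' : Equiv.Perm G := liftP σ' (fun v => t v * z) π htz
  have hρ' : ∀ x, π (ρ' x) = σ' (π x) := fun x => map_liftP σ' _ htz x
  have hρz' : ∀ x, ρ' (x * z) = ρ' x * z := fun x => liftP_z h σ' _ htz x
  have hagree : ∀ x, π x ∉ D → σ (π x) ∉ D → ρ' x = ρ x := by
    intro x hx hx'
    change x * (t (π x) * z) = x * (s (π x) * z)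
    rw [t3 _ hx hx']
  have hgood : ∀ x, π x ∉ D → ¬ ρ'.SameCycle x (x * z) := by
    intro x hx
    by_cases hn : ∃ n ∈ D, σ.SameCycle (π x) n
    · obtain ⟨n, hn, hxn⟩ := hn
      obtain ⟨f, hf⟩ := h.surj (σ.symm n)
      have hσf : σ (π f) = n := by rw [hf, Equiv.apply_symm_apply]
      have hfn : σ.SameCycle (π f) n := by rw [hf]; exact (same_symm n).symm
      have hfD : π f ∉ D := by rw [hf]; exact hsymD n hn
      refine h.skip hρ hρz hρz' f ?_ ?_ (hT.step2 h1' h12 _) ?_ ?_ x ?_ ?_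
      · obtain ⟨y, hy1, hy2⟩ := hD4 n hn
        exact ⟨y, hy1.trans hfn.symm, hy2⟩
      · have e1 : ρ' f = f * (s (π f) * s n * z) := by
          change f * (t (π f) * z) = _
          rw [t2 _ hfD (by rw [hσf]; exact hn), hσf]
        have e2 : ρ f = f * (s (π f) * z) := rfl
        have e3 : ρ (ρ f) = ρ f * (s (π (ρ f)) * z) := rfl
        rw [e3, hρ, hσf, e2, e1]
        have c1 : z * s n = s n * z := (h.comm _).symm
        calc f * (s (π f) * s n * z) = f * s (π f) * s n * z := by group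
          _ = f * s (π f) * (s n * z) := by group
          _ = f * s (π f) * (z * s n) := by rw [c1]
          _ = f * (s (π f) * z) * s n := by group
          _ = f * (s (π f) * z) * s n * (z * z) := by rw [h.sq, mul_one]
          _ = f * (s (π f) * z) * (s n * z) * z := by group
      · rw [hσf]
        intro h'
        apply hfD
        rw [← h']; exact hn
      · intro y hy1 hy2 hy3
        rw [hσf] at hy3
        apply hagree
        · intro h'
          exact hy3 (hD2 _ h' n hn (hy1.symm.trans hfn))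
        · intro h'
          have e1 : σ (π y) = n :=
            hD2 _ h' n hn ((same_apply (π y)).symm.trans (hy1.symm.trans hfn))
          apply hy2
          rw [hf, ← e1, Equiv.symm_apply_apply]
      · exact hfn.trans hxn.symm
      · rw [hσf]
        intro h'
        apply hx; rw [h']; exact hn
    · intro hs
      have hcl : ∀ v, σ.SameCycle (π x) v → v ∉ D ∧ σ v ∉ D := by
        intro v hv
        exact ⟨fun h' => hn ⟨v, h', hv⟩, fun h' => hn ⟨_, h', hv.trans (same_apply v)⟩⟩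
      have hit : ∀ k, ρ'^[k] x = ρ^[k] x := by
        intro k
        induction k with
        | zero => rfl
        | succ k ih =>
          rw [Function.iterate_succ_apply', Function.iterate_succ_apply', ih]
          have e1 : σ.SameCycle (π x) (π (ρ^[k] x)) := by
            rw [map_iterate hρ]
            exact same_iterate (ρ := σ) _ _
          obtain ⟨q1, q2⟩ := hcl _ e1
          exact hagree _ q1 q2
      obtain ⟨k, hk⟩ := hs.exists_nat_pow_eq
      rw [← Equiv.Perm.iterate_eq_pow, hit] at hk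
      obtain ⟨n, hnD, hxn⟩ := hD3 x (by
        rw [← hk]; exact same_iterate (ρ := ρ) _ _)
      exact hn ⟨n, hnD, hxn⟩
  obtain ⟨a, ha1, ha2⟩ := exists_colouring (Equiv.Perm.SameCycle.setoid ρ') (fun x => x * z)
    (fun x => h.zz x) (fun x y hxy => same_z hρz' hxy) {x | π x ∉ D} hgood
  refine ⟨D, σ', t, a, hDN, hD2, ht, htA, k1, ?_, k3, ha2, ?_⟩
  · intro n hn
    rw [k2 _ (hsymD n hn) (by rw [Equiv.apply_symm_apply]; exact hn), Equiv.apply_symm_apply]
  · intro x hx
    have e1 : a x = a (ρ' x) := ha1 _ _ (same_apply x)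
    have e2 : ρ' x = x * t (π x) * z := (mul_assoc _ _ _).symm
    rw [e2] at e1
    have hnD : σ' (π x) ∉ D := by
      intro h'
      have e3 := k1 _ h'
      have e4 := σ'.injective e3
      rw [e4] at h'
      exact hx h'
    have e5 : π (x * t (π x)) ∉ D := by
      rw [map_mul, ← ht]; exact hnD
    rw [ha2 _ e5] at e1
    rw [e1, Bool.not_not]

end

end Pool.Agent.H151.TW
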