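import Pool.Agent.H151.TW.Cut
import Pool.Graph.R_pool_sql_team_seeded_63374d34.N81.Cay.Main

/-!
A spanning matching between the cycles of `σ`.
-/

namespace Pool.Agent.H151.TW

open Pool.Agent.N81.Cay

universe u

section

variable {G : Type u} [Group G] {b₁ b₂ : G} {N : Set G} {σ : Equiv.Perm G}

open Classical in
/-- the projection which identifies the two neighbours on `σ` of the elements of `D` -/
noncomputable def proj (σ : Equiv.Perm G) (D : Set G) (x : G) : G :=
  if σ.symm x ∈ D then σ.symm (σ.symm x) else x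

theorem TN.at_symm (h : TN b₁ b₂ N σ) {n : G} (hn : n ∈ N) :
    n⁻¹ * σ n ∈ Subgroup.zpowers b₁ ∧ n⁻¹ * σ.symm n ∈ Subgroup.zpowers b₁ := by
  obtain ⟨e, he, e1, e2, e3⟩ := h.atN n hn
  have heZ : e ∈ Subgroup.zpowers b₁ := by
    rcases he with rfl | rfl
    · exact Subgroup.mem_zpowers _
    · exact Subgroup.inv_mem _ (Subgroup.mem_zpowers _)
  refine ⟨by rw [e1, inv_mul_cancel_left]; exact heZ, ?_⟩
  have : σ.symm n = n * e⁻¹ := by rw [Equiv.symm_apply_eq, e2]
  rw [this, inv_mul_cancel_left]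
  exact Subgroup.inv_mem _ heZ

theorem TN.not_mem (h1 : orderOf b₁ = 3) (h : TN b₁ b₂ N σ) {n : G} (hn : n ∈ N) :
    σ n ∉ N ∧ σ.symm n ∉ N := by
  obtain ⟨o1, o2, o3, o4⟩ := order3 h1
  obtain ⟨e, he, e1, e2, e3⟩ := h.atN n hn
  have he1 : e ≠ 1 := by
    rcases he with rfl | rfl
    · exact o1
    · exact inv_ne_one.2 o1
  obtain ⟨z1, z2⟩ := h.at_symm hn
  have hs : σ.symm n = n * e⁻¹ := by rw [Equiv.symm_apply_eq, e2]
  constructor
  · intro h'
    have := (h.t1 (σ n)).unique ⟨h', by rw [inv_mul_cancel]; exact Subgroup.one_mem _⟩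
      ⟨hn, by
        have := Subgroup.inv_mem _ z1
        rwa [mul_inv_rev, inv_inv] at this⟩
    rw [e1] at this
    exact he1 (mul_eq_left.1 this)
  · intro h'
    have := (h.t1 (σ.symm n)).unique ⟨h', by rw [inv_mul_cancel]; exact Subgroup.one_mem _⟩
      ⟨hn, by
        have := Subgroup.inv_mem _ z2
        rwa [mul_inv_rev, inv_inv] at this⟩
    rw [hs] at this
    exact he1 (inv_eq_one.1 (mul_eq_left.1 this))

omit [Group G] in
theorem same_symm (x : G) : σ.SameCycle x (σ.symm x) := by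
  have := same_apply (σ := σ) (σ.symm x)
  rw [Equiv.apply_symm_apply] at this
  exact this.symm

omit [Group G] in
theorem proj_same (D : Set G) (x : G) : σ.SameCycle x (proj σ D x) := by
  unfold proj
  split_ifs
  · exact (same_symm x).trans (same_symm _)
  · exact Equiv.Perm.SameCycle.refl _ _

open Classical in
/-- the partner of `m ∈ N` -/
noncomputable def tau (b₂ : G) (σ : Equiv.Perm G) (D : Set G) (m : G) : G :=
  if σ (m * b₂) ∈ D ∨ σ.symm (m * b₂) ∈ D then m * b₂⁻¹ else m * b₂

theorem TN.tau_spec (h1 : orderOf b₁ = 3) (h2 : orderOf b₂ = 3)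
    (h12 : b₂ ∉ Subgroup.zpowers b₁) (h : TN b₁ b₂ N σ) (D : Set G) (hDN : D ⊆ N)
    (hD : ∀ n ∈ D, ∀ n' ∈ D, σ.SameCycle n n' → n = n') {m : G} (hm : m ∈ N) :
    ¬ (σ (tau b₂ σ D m) ∈ D ∨ σ.symm (tau b₂ σ D m) ∈ D) ∧
      σ.SameCycle (m * b₂) (tau b₂ σ D m) ∧
      (tau b₂ σ D m = m * b₂ ∨ tau b₂ σ D m = m * b₂⁻¹) ∧ tau b₂ σ D m ∉ N := by
  obtain ⟨p1, p2, p3, p4⟩ := order3 h2
  have hin : ∀ x, (σ x ∈ D ∨ σ.symm x ∈ D) → ∃ n ∈ D, n⁻¹ * x ∈ Subgroup.zpowers b₁ := by
    rintro x (hx | hx)
    · refine ⟨σ x, hx, ?_⟩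
      have := (h.at_symm (hDN hx)).2
      rwa [Equiv.symm_apply_apply] at this
    · refine ⟨σ.symm x, hx, ?_⟩
      have := (h.at_symm (hDN hx)).1
      rwa [Equiv.apply_symm_apply] at this
  have hno : ∀ x ∈ ({m * b₂, m * b₂⁻¹} : Set G), x ∉ N := by
    intro x hx hxN
    have hxm : x⁻¹ * m ∈ Subgroup.zpowers b₂ := by
      rcases hx with h | h
      · rw [h, mul_inv_rev, inv_mul_cancel_right]
        exact Subgroup.inv_mem _ (Subgroup.mem_zpowers _)
      · rw [h, mul_inv_rev, inv_inv, inv_mul_cancel_right]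
        exact Subgroup.mem_zpowers _
    have := (h.t2 x).unique ⟨hxN, by rw [inv_mul_cancel]; exact Subgroup.one_mem _⟩ ⟨hm, hxm⟩
    rcases hx with h | h
    · rw [h] at this; exact p1 (mul_eq_left.1 this)
    · rw [h] at this; exact p1 (inv_eq_one.1 (mul_eq_left.1 this))
  unfold tau
  split_ifs with hc
  · refine ⟨?_, h.same m hm, Or.inr rfl, hno _ (Or.inr rfl)⟩
    intro hc'
    obtain ⟨n, hn, hn1⟩ := hin _ hc
    obtain ⟨n', hn', hn1'⟩ := hin _ hc'
    have hs : σ.SameCycle n n' :=
      ((h.same_coset h1 _ _ hn1).trans (h.same m hm)).trans (h.same_coset h1 _ _ hn1').symm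
    have hnn := hD n hn n' hn' hs
    rw [← hnn] at hn1'
    apply h12
    have e : (n⁻¹ * (m * b₂⁻¹))⁻¹ * (n⁻¹ * (m * b₂)) = b₂ * b₂ := by group
    have h3 := Subgroup.mul_mem _ (Subgroup.inv_mem _ hn1') hn1
    rw [e, p2] at h3
    exact inv_mem_iff.1 h3
  · exact ⟨hc, Equiv.Perm.SameCycle.refl _ _, Or.inl rfl, hno _ (Or.inl rfl)⟩

omit [Group G] in
open Classical in
theorem card_proj_le [Fintype G] (D : Set G) (v : G) :
    (Finset.univ.filter fun x : G => proj σ D x = v).card ≤ (if σ v ∈ D then 2 else 1) := by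
  split_ifs with hv
  · have hsub : (Finset.univ.filter fun x : G => proj σ D x = v) ⊆ {v, σ (σ v)} := by
      intro x hx
      rw [Finset.mem_filter] at hx
      have hx := hx.2
      rw [Finset.mem_insert, Finset.mem_singleton]
      unfold proj at hx
      split_ifs at hx with h
      · right; rw [← hx]; simp
      · left; exact hx
    exact (Finset.card_le_card hsub).trans Finset.card_le_two
  · have hsub : (Finset.univ.filter fun x : G => proj σ D x = v) ⊆ {v} := by
      intro x hx
      rw [Finset.mem_filter] at hx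
      have hx := hx.2
      rw [Finset.mem_singleton]
      unfold proj at hx
      split_ifs at hx with h
      · exfalso
        apply hv
        rw [← hx, Equiv.apply_symm_apply]; exact h
      · exact hx
    exact (Finset.card_le_card hsub).trans (Finset.card_singleton _).le

open Classical in
theorem spans_aux [Fintype G] (h1 : orderOf b₁ = 3) (h2 : orderOf b₂ = 3)
    (h12 : b₂ ∉ Subgroup.zpowers b₁) (h : TN b₁ b₂ N σ) (A : Set G) (hA : ∀ x ∈ A, x⁻¹ ∈ A)
    (hb2 : b₂ ∈ A) (D : Set G) (hDN : D ⊆ N)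
    (hD : ∀ n ∈ D, ∀ n' ∈ D, σ.SameCycle n n' → n = n')
    (k : ℕ) (c : Fin k → G) (w : Fin k → ℝ) (hc : ∀ i, c i ∈ A) (hw : ∀ i, 0 ≤ w i)
    (W : ℝ) (hW : ∑ i, w i = W) (hW1 : W ≤ 1)
    (hcut : ∀ X : Set G, (∀ x ∈ X, ∀ y, σ.SameCycle x y → y ∈ X) → X.Nonempty →
      X ≠ Set.univ → 2 * (2 + 2 * W) ≤
        ((Finset.univ.filter fun m : G => m ∈ N ∧ ¬ (m ∈ X ↔ m * b₂ ∈ X)).card : ℝ) +
        ∑ i, w i * (Nat.card {x : G // x ∈ X ∧ x * c i ∉ X} : ℝ)) :
    ∃ M, Spans (Equiv.Perm.SameCycle.setoid σ)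
      (fun u v => ∃ x y, proj σ D x = u ∧ proj σ D y = v ∧ x⁻¹ * y ∈ A) M := by
  have hW0 : 0 ≤ W := by rw [← hW]; exact Finset.sum_nonneg fun i _ => hw i
  set p := proj σ D with hp
  set τ := tau b₂ σ D with hτ
  have hps : ∀ x, σ.SameCycle x (p x) := proj_same D
  let ω : (G × Bool) ⊕ (G × Fin k) → ℝ :=
    Sum.elim (fun q => if q.1 ∈ N then 1 else 0) (fun q => w q.2)
  let l : (G × Bool) ⊕ (G × Fin k) → G :=
    Sum.elim (fun q => if q.2 then p q.1 else p (τ q.1)) (fun q => p q.1)
  let l' : (G × Bool) ⊕ (G × Fin k) → G :=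
    Sum.elim (fun q => if q.2 then p (τ q.1) else p q.1) (fun q => p (q.1 * c q.2))
  have hτb : ∀ m, m⁻¹ * τ m ∈ A ∧ (τ m)⁻¹ * m ∈ A := by
    intro m
    have : τ m = m * b₂ ∨ τ m = m * b₂⁻¹ := by
      rw [hτ]; unfold tau; split_ifs
      · exact Or.inr rfl
      · exact Or.inl rfl
    rcases this with h | h
    · rw [h, inv_mul_cancel_left, mul_inv_rev, inv_mul_cancel_right]
      exact ⟨hb2, hA _ hb2⟩
    · rw [h, inv_mul_cancel_left, mul_inv_rev, inv_inv, inv_mul_cancel_right]
      exact ⟨hA _ hb2, hb2⟩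
  refine spanning_of_cut (Equiv.Perm.SameCycle.setoid σ) _ ?_ l l' ω ?_ (2 + 2 * W)
    (by linarith) ?_ ?_ ?_
  · rintro u v ⟨x, y, hx, hy, hxy⟩
    refine ⟨y, x, hy, hx, ?_⟩
    have := hA _ hxy
    rwa [mul_inv_rev, inv_inv] at this
  · rintro (q | q)
    · change 0 ≤ if q.1 ∈ N then (1:ℝ) else 0
      split_ifs <;> norm_num
    · exact hw _
  · rintro (⟨m, b⟩ | ⟨x, i⟩) _
    · cases b
      · exact ⟨τ m, m, rfl, rfl, (hτb m).2⟩
      · exact ⟨m, τ m, rfl, rfl, (hτb m).1⟩
    · refine ⟨x, x * c i, rfl, rfl, ?_⟩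
      rw [inv_mul_cancel_left]; exact hc i
  · intro v
    -- the loads
    have s1 : (∑ j, if l j = v then ω j else 0) =
        (∑ m : G, if p m = v then (if m ∈ N then (1:ℝ) else 0) else 0) +
        (∑ m : G, if p (τ m) = v then (if m ∈ N then (1:ℝ) else 0) else 0) +
        W * ((Finset.univ.filter fun x : G => p x = v).card : ℝ) := by
      rw [Fintype.sum_sum_type, Fintype.sum_prod_type]
      congr 1
      · rw [← Finset.sum_add_distrib]
        apply Finset.sum_congr rfl
        intro m _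
        rw [Fintype.sum_bool]
        rfl
      · change (∑ q : G × Fin k, if p q.1 = v then w q.2 else 0) = _
        rw [sum_weights w (fun q : G × Fin k => p q.1 = v)]
        have : ∀ i : Fin k, (Nat.card {x : G // p (x, i).1 = v} : ℝ) =
            ((Finset.univ.filter fun x : G => p x = v).card : ℝ) := by
          intro i
          rw [Nat.card_eq_fintype_card, Fintype.card_subtype]
        rw [Finset.sum_congr rfl fun i _ => by rw [this i], ← Finset.sum_mul, hW]
    have s2 : (∑ j, if l' j = v then ω j else 0) =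
        (∑ m : G, if p m = v then (if m ∈ N then (1:ℝ) else 0) else 0) +
        (∑ m : G, if p (τ m) = v then (if m ∈ N then (1:ℝ) else 0) else 0) +
        W * ((Finset.univ.filter fun x : G => p x = v).card : ℝ) := by
      rw [Fintype.sum_sum_type, Fintype.sum_prod_type]
      congr 1
      · rw [← Finset.sum_add_distrib]
        apply Finset.sum_congr rfl
        intro m _
        rw [Fintype.sum_bool, add_comm]
        rfl
      · change (∑ q : G × Fin k, if p (q.1 * c q.2) = v then w q.2 else 0) = _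
        rw [sum_weights w (fun q : G × Fin k => p (q.1 * c q.2) = v)]
        have : ∀ i : Fin k, (Nat.card {x : G // p ((x, i).1 * c (x, i).2) = v} : ℝ) =
            ((Finset.univ.filter fun x : G => p x = v).card : ℝ) := by
          intro i
          have e1 : Nat.card {x : G // p ((x, i).1 * c (x, i).2) = v} =
              Nat.card {x : G // p x = v} :=
            Nat.card_congr ((Equiv.mulRight (c i)).subtypeEquiv fun x => Iff.rfl)
          rw [e1, Nat.card_eq_fintype_card, Fintype.card_subtype]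
        rw [Finset.sum_congr rfl fun i _ => by rw [this i], ← Finset.sum_mul, hW]
    rw [s1, s2]
    -- elements of `N` are fixed by `p`
    have hpN : ∀ m ∈ N, p m = m := by
      intro m hm
      rw [hp]; unfold proj
      rw [if_neg]
      intro h'
      exact (h.not_mem h1 hm).2 (hDN h')
    have hpτ : ∀ m ∈ N, p (τ m) = τ m := by
      intro m hm
      rw [hp]; unfold proj
      rw [if_neg]
      intro h'
      exact (h.tau_spec h1 h2 h12 D hDN hD hm).1 (Or.inr h')
    have t1 : (∑ m : G, if p m = v then (if m ∈ N then (1:ℝ) else 0) else 0) =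
        if v ∈ N then 1 else 0 := by
      have : ∀ m : G, (if p m = v then (if m ∈ N then (1:ℝ) else 0) else 0) =
          if m = v then (if v ∈ N then (1:ℝ) else 0) else 0 := by
        intro m
        by_cases hm : m ∈ N
        · rw [hpN m hm]
          by_cases e : m = v
          · rw [if_pos e, if_pos e, if_pos hm, if_pos (e ▸ hm)]
          · rw [if_neg e, if_neg e]
        · by_cases e : m = v
          · have hv' : v ∉ N := e ▸ hm
            simp [hm, hv']
          · simp [hm, e]
      rw [Finset.sum_congr rfl fun m _ => this m, Finset.sum_ite_eq' Finset.univ v]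
      simp
    have t2 : (∑ m : G, if p (τ m) = v then (if m ∈ N then (1:ℝ) else 0) else 0) =
        ((Finset.univ.filter fun m : G => m ∈ N ∧ τ m = v).card : ℝ) := by
      rw [Finset.card_filter, Nat.cast_sum]
      apply Finset.sum_congr rfl
      intro m _
      by_cases hm : m ∈ N
      · rw [hpτ m hm]
        by_cases e : τ m = v
        · rw [if_pos e, if_pos hm, if_pos ⟨hm, e⟩]; simp
        · rw [if_neg e, if_neg (fun h' => e h'.2)]; simp
      · simp [hm]
    have t3 := card_proj_le (σ := σ) D v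
    rw [t1, t2]
    by_cases hv : σ v ∈ D
    · -- merged slot
      rw [if_pos hv] at t3
      have hvN : v ∉ N := by
        intro h'
        exact (h.not_mem h1 h').1 (hDN hv)
      have t4 : (Finset.univ.filter fun m : G => m ∈ N ∧ τ m = v).card = 0 := by
        rw [Finset.card_eq_zero, Finset.filter_eq_empty_iff]
        rintro m _ ⟨hm, hmv⟩
        apply (h.tau_spec h1 h2 h12 D hDN hD hm).1
        left
        change σ (τ m) ∈ D
        rw [hmv]; exact hv
      rw [if_neg hvN, t4]
      have t3' : ((Finset.univ.filter fun x : G => p x = v).card : ℝ) ≤ 2 := by exact_mod_cast t3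
      push_cast
      nlinarith
    · rw [if_neg hv] at t3
      have t3' : ((Finset.univ.filter fun x : G => p x = v).card : ℝ) ≤ 1 := by exact_mod_cast t3
      have t5 : (if v ∈ N then (1:ℝ) else 0) +
          ((Finset.univ.filter fun m : G => m ∈ N ∧ τ m = v).card : ℝ) ≤ 1 := by
        by_cases hvN : v ∈ N
        · have t4 : (Finset.univ.filter fun m : G => m ∈ N ∧ τ m = v).card = 0 := by
            rw [Finset.card_eq_zero, Finset.filter_eq_empty_iff]
            rintro m _ ⟨hm, hmv⟩
            apply (h.tau_spec h1 h2 h12 D hDN hD hm).2.2.2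
            change τ m ∈ N
            rw [hmv]; exact hvN
          rw [if_pos hvN, t4]; norm_num
        · have t4 : (Finset.univ.filter fun m : G => m ∈ N ∧ τ m = v).card ≤ 1 := by
            rw [Finset.card_le_one]
            intro a ha b hb
            rw [Finset.mem_filter] at ha hb
            obtain ⟨-, ha1, ha2⟩ := ha
            obtain ⟨-, hb1, hb2⟩ := hb
            have key : ∀ m ∈ N, τ m = v → v⁻¹ * m ∈ Subgroup.zpowers b₂ := by
              intro m hm hmv
              rw [← hmv]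
              rcases (h.tau_spec h1 h2 h12 D hDN hD hm).2.2.1 with h' | h'
              · rw [hτ, h', mul_inv_rev, inv_mul_cancel_right]
                exact Subgroup.inv_mem _ (Subgroup.mem_zpowers _)
              · rw [hτ, h', mul_inv_rev, inv_inv, inv_mul_cancel_right]
                exact Subgroup.mem_zpowers _
            exact (h.t2 v).unique ⟨ha1, key a ha1 ha2⟩ ⟨hb1, key b hb1 hb2⟩
          have t4' : ((Finset.univ.filter fun m : G => m ∈ N ∧ τ m = v).card : ℝ) ≤ 1 := by
            exact_mod_cast t4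
          rw [if_neg hvN]; linarith
      nlinarith
  · intro X hX hX1 hX2
    have hX' : ∀ x ∈ X, ∀ y, σ.SameCycle x y → y ∈ X := fun x hx y hxy => hX x hx y hxy
    have hiff : ∀ x y, σ.SameCycle x y → (x ∈ X ↔ y ∈ X) := fun x y hxy =>
      ⟨fun hx => hX' x hx y hxy, fun hy => hX' y hy x hxy.symm⟩
    have h5 := hcut X hX' hX1 hX2
    refine h5.trans (le_of_eq ?_)
    rw [Fintype.sum_sum_type, Fintype.sum_prod_type]
    congr 1
    · rw [Finset.card_filter, Nat.cast_sum]
      apply Finset.sum_congr rfl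
      intro m _
      rw [Fintype.sum_bool]
      change _ = (if (p m ∈ X ∧ p (τ m) ∉ X) then (if m ∈ N then (1:ℝ) else 0) else 0) +
        (if (p (τ m) ∈ X ∧ p m ∉ X) then (if m ∈ N then (1:ℝ) else 0) else 0)
      by_cases hm : m ∈ N
      · have q1 : p m ∈ X ↔ m ∈ X := (hiff _ _ (hps m)).symm
        have q2 : p (τ m) ∈ X ↔ m * b₂ ∈ X :=
          (hiff _ _ ((h.tau_spec h1 h2 h12 D hDN hD hm).2.1.trans (hps _))).symm
        rw [q1, q2]
        by_cases c1 : m ∈ X <;> by_cases c2 : m * b₂ ∈ X <;> simp [hm, c1, c2]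
      · simp [hm]
    · change _ = ∑ q : G × Fin k, if (p q.1 ∈ X ∧ p (q.1 * c q.2) ∉ X) then w q.2 else 0
      rw [sum_weights w (fun q : G × Fin k => p q.1 ∈ X ∧ p (q.1 * c q.2) ∉ X)]
      apply Finset.sum_congr rfl
      intro i _
      congr 2
      apply Nat.card_congr
      apply Equiv.subtypeEquivRight
      intro x
      change _ ↔ p x ∈ X ∧ p (x * c i) ∉ X
      rw [← hiff _ _ (hps x), ← hiff _ _ (hps (x * c i))]

end

end Pool.Agent.H151.TW
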