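import Mathlib

/-!
Common transversals of left cosets.
-/

namespace Pool.Agent.H151.TW

universe u

open Classical in
theorem card_preimage_mk {G : Type u} [Group G] [Fintype G] (H : Subgroup G)
    (s : Finset (G ⧸ H)) :
    (Finset.univ.filter fun g : G => (QuotientGroup.mk g : G ⧸ H) ∈ s).card =
      Nat.card H * s.card := by
  have e := QuotientGroup.preimageMkEquivSubgroupProdSet H (s : Set (G ⧸ H))
  have h1 := Nat.card_congr e
  rw [Nat.card_prod] at h1
  have h2 : Nat.card ((s : Set (G ⧸ H)) : Type u) = s.card := by simp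
  rw [h2] at h1
  rw [← h1, Nat.card_eq_fintype_card, Fintype.card_subtype]
  congr 1
  ext g
  simp

open Classical in
/-- two subgroups of the same order have a common transversal of their left cosets -/
theorem exists_common_transversal {G : Type u} [Group G] [Finite G] (H K : Subgroup G)
    (h : Nat.card H = Nat.card K) :
    ∃ N : Set G, (∀ x, ∃! n, n ∈ N ∧ x⁻¹ * n ∈ H) ∧ (∀ x, ∃! n, n ∈ N ∧ x⁻¹ * n ∈ K) := by
  have : Fintype G := Fintype.ofFinite G
  have : Fintype (G ⧸ H) := Fintype.ofFinite _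
  have : Fintype (G ⧸ K) := Fintype.ofFinite _
  let t : G ⧸ H → Finset (G ⧸ K) := fun P =>
    Finset.univ.filter fun Q => ∃ g : G, (QuotientGroup.mk g : G ⧸ H) = P ∧
      (QuotientGroup.mk g : G ⧸ K) = Q
  have hpos : 0 < Nat.card K := Nat.card_pos
  have hall : ∀ s : Finset (G ⧸ H), s.card ≤ (s.biUnion t).card := by
    intro s
    have h1 : (Finset.univ.filter fun g : G => (QuotientGroup.mk g : G ⧸ H) ∈ s) ⊆
        (Finset.univ.filter fun g : G => (QuotientGroup.mk g : G ⧸ K) ∈ s.biUnion t) := by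
      intro g hg
      rw [Finset.mem_filter] at hg ⊢
      refine ⟨Finset.mem_univ _, Finset.mem_biUnion.2 ⟨_, hg.2, ?_⟩⟩
      rw [Finset.mem_filter]
      exact ⟨Finset.mem_univ _, g, rfl, rfl⟩
    have h2 := Finset.card_le_card h1
    rw [card_preimage_mk, card_preimage_mk, h] at h2
    exact Nat.le_of_mul_le_mul_left h2 hpos
  obtain ⟨f, hf, hft⟩ := (Finset.all_card_le_biUnion_card_iff_exists_injective t).1 hall
  have hcard : Fintype.card (G ⧸ H) = Fintype.card (G ⧸ K) := by
    have h1 : Nat.card G = Nat.card (G ⧸ H) * Nat.card H := Subgroup.card_eq_card_quotient_mul_card_subgroup H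
    have h2 : Nat.card G = Nat.card (G ⧸ K) * Nat.card K := Subgroup.card_eq_card_quotient_mul_card_subgroup K
    rw [h1, h] at h2
    have h3 := Nat.eq_of_mul_eq_mul_right hpos h2
    rwa [Nat.card_eq_fintype_card, Nat.card_eq_fintype_card] at h3
  have hbij : Function.Bijective f := (Fintype.bijective_iff_injective_and_card f).2 ⟨hf, hcard⟩
  have hg : ∀ P, ∃ g : G, (QuotientGroup.mk g : G ⧸ H) = P ∧ (QuotientGroup.mk g : G ⧸ K) = f P := by
    intro P
    have := hft P
    rw [Finset.mem_filter] at this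
    exact this.2
  choose g hg1 hg2 using hg
  refine ⟨Set.range g, ?_, ?_⟩
  · intro x
    refine ⟨g (QuotientGroup.mk x), ⟨⟨_, rfl⟩, ?_⟩, ?_⟩
    · have := hg1 (QuotientGroup.mk x)
      exact QuotientGroup.eq.1 this.symm
    · rintro _ ⟨⟨P, rfl⟩, hP⟩
      have h1 : (QuotientGroup.mk x : G ⧸ H) = QuotientGroup.mk (g P) := QuotientGroup.eq.2 hP
      rw [hg1] at h1
      rw [h1]
  · intro x
    obtain ⟨P, hP⟩ := hbij.2 (QuotientGroup.mk x)
    refine ⟨g P, ⟨⟨_, rfl⟩, ?_⟩, ?_⟩
    · have := hg2 P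
      rw [hP] at this
      exact QuotientGroup.eq.1 this.symm
    · rintro _ ⟨⟨P', rfl⟩, hP'⟩
      have h1 : (QuotientGroup.mk x : G ⧸ K) = QuotientGroup.mk (g P') := QuotientGroup.eq.2 hP'
      rw [hg2, ← hP] at h1
      rw [hf h1]

end Pool.Agent.H151.TW
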