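import Pool.Agent.H151.TW.Col
import Pool.Agent.H151.TW.Trans

/-!
Two elements of order three: a permutation whose cycles are unions of left cosets.
-/

namespace Pool.Agent.H151.TW

universe u

theorem mem_zp3 {G : Type u} [Group G] {b : G} (hb : orderOf b = 3) (x : G) :
    x ∈ Subgroup.zpowers b ↔ x = 1 ∨ x = b ∨ x = b⁻¹ := by
  classical
  have hfin : IsOfFinOrder b := by
    rw [← orderOf_pos_iff, hb]; norm_num
  have h3 : b ^ 3 = 1 := by rw [← hb]; exact pow_orderOf_eq_one b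
  have hbb : b ^ 2 = b⁻¹ := by
    rw [eq_inv_iff_mul_eq_one, ← pow_succ]; exact h3
  constructor
  · intro h
    rw [Subgroup.mem_zpowers_iff] at h
    obtain ⟨k, rfl⟩ := h
    rw [← zpow_mod_orderOf, hb]
    have h1 : (0:ℤ) ≤ k % (3:ℕ) := Int.emod_nonneg _ (by norm_num)
    have h2 : k % (3:ℕ) < 3 := by
      have := Int.emod_lt_of_pos k (show (0:ℤ) < (3:ℕ) by norm_num)
      simpa using this
    have h4 : k % (3:ℕ) = 0 ∨ k % (3:ℕ) = 1 ∨ k % (3:ℕ) = 2 := by omega
    rcases h4 with h | h | h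
    · left; rw [h, zpow_zero]
    · right; left; rw [h, zpow_one]
    · right; right; rw [h]; rw [← hbb]; norm_cast
  · rintro (rfl | rfl | rfl)
    · exact Subgroup.one_mem _
    · exact Subgroup.mem_zpowers _
    · exact Subgroup.inv_mem _ (Subgroup.mem_zpowers _)

theorem order3 {G : Type u} [Group G] {b : G} (hb : orderOf b = 3) :
    b ≠ 1 ∧ b * b = b⁻¹ ∧ b⁻¹ * b⁻¹ = b ∧ b⁻¹ ≠ b := by
  have h3 : b ^ 3 = 1 := by rw [← hb]; exact pow_orderOf_eq_one b
  have h1 : b ≠ 1 := by rintro rfl; rw [orderOf_one] at hb; omega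
  have h2 : b * b = b⁻¹ := by
    rw [eq_inv_iff_mul_eq_one, ← pow_two, ← pow_succ]; exact h3
  refine ⟨h1, h2, ?_, ?_⟩
  · rw [← mul_inv_rev, h2, inv_inv]
  · intro h
    rw [h] at h2
    exact h1 (mul_eq_left.1 h2)

/-- the involution of a transversal of the cosets of an element of order three -/
theorem exists_flip {G : Type u} [Group G] {b : G} (hb : orderOf b = 3)
    (N : Set G) (hN : ∀ x, ∃! n, n ∈ N ∧ x⁻¹ * n ∈ Subgroup.zpowers b) :
    ∃ (ν : G → G) (μ : Equiv.Perm G), (∀ x, ν x ∈ N) ∧ (∀ x, x⁻¹ * ν x ∈ Subgroup.zpowers b) ∧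
      (∀ x, μ (μ x) = x) ∧ (∀ x, x ∉ N → μ x ∉ N ∧ μ x ≠ x) ∧
      (∀ n ∈ N, n * b ∉ N ∧ n * b⁻¹ ∉ N ∧ μ (n * b) = n * b⁻¹ ∧ μ (n * b⁻¹) = n * b ∧
        ν (n * b) = n ∧ ν (n * b⁻¹) = n) ∧
      (∀ x, x ∉ N → (x = ν x * b ∨ x = ν x * b⁻¹) ∧ (μ x = x * b ∨ μ x = x * b⁻¹)) := by
  obtain ⟨h1, h2, h3, h4⟩ := order3 hb
  choose ν hν hνu using hN
  have hνu' : ∀ x n, n ∈ N → x⁻¹ * n ∈ Subgroup.zpowers b → n = ν x := fun x n a b => hνu x n ⟨a, b⟩
  have hνN : ∀ x, ν x ∈ N := fun x => (hν x).1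
  have hνb : ∀ x, x⁻¹ * ν x ∈ Subgroup.zpowers b := fun x => (hν x).2
  let m : G → G := fun x => ν x * x⁻¹ * ν x
  have hm1 : ∀ x, ν (m x) = ν x := by
    intro x
    refine (hνu' _ _ (hνN x) ?_).symm
    have e : (m x)⁻¹ * ν x = (x⁻¹ * ν x)⁻¹ := by
      change (ν x * x⁻¹ * ν x)⁻¹ * ν x = (x⁻¹ * ν x)⁻¹
      group
    rw [e]
    exact Subgroup.inv_mem _ (hνb x)
  have hm2 : ∀ x, m (m x) = x := by
    intro x
    change ν (m x) * (m x)⁻¹ * ν (m x) = x
    rw [hm1]
    change ν x * (ν x * x⁻¹ * ν x)⁻¹ * ν x = x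
    group
  have hνn : ∀ n ∈ N, ν n = n := fun n hn =>
    (hνu' n n hn (by rw [inv_mul_cancel]; exact Subgroup.one_mem _)).symm
  have hbz : b ∈ Subgroup.zpowers b := Subgroup.mem_zpowers b
  have hν1 : ∀ n ∈ N, ν (n * b) = n := fun n hn =>
    (hνu' _ n hn (by rw [mul_inv_rev, inv_mul_cancel_right]; exact Subgroup.inv_mem _ hbz)).symm
  have hν2 : ∀ n ∈ N, ν (n * b⁻¹) = n := fun n hn =>
    (hνu' _ n hn (by rw [mul_inv_rev, inv_inv, inv_mul_cancel_right]; exact hbz)).symm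
  have hnb : ∀ n ∈ N, n * b ∉ N := by
    intro n hn h
    have h5 := hνn _ h
    rw [hν1 n hn] at h5
    exact h1 (mul_eq_left.1 h5.symm)
  have hnb' : ∀ n ∈ N, n * b⁻¹ ∉ N := by
    intro n hn h
    have h5 := hνn _ h
    rw [hν2 n hn] at h5
    exact h1 (inv_eq_one.1 (mul_eq_left.1 h5.symm))
  have hx : ∀ x, x ∉ N → x = ν x * b ∨ x = ν x * b⁻¹ := by
    intro x hxN
    rcases (mem_zp3 hb _).1 (hνb x) with h | h | h
    · exfalso; apply hxN
      have : x = ν x := by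
        rw [inv_mul_eq_one] at h; exact h
      rw [this]; exact hνN x
    · right
      rw [eq_mul_inv_iff_mul_eq, ← h, mul_inv_cancel_left]
    · left
      have h5 : (x⁻¹ * ν x)⁻¹ = b := by rw [h, inv_inv]
      rw [mul_inv_rev, inv_inv] at h5
      rw [← h5, mul_inv_cancel_left]
  have hμ1 : ∀ n ∈ N, m (n * b) = n * b⁻¹ := by
    intro n hn
    change ν (n * b) * (n * b)⁻¹ * ν (n * b) = _
    rw [hν1 n hn]; group
  have hμ2 : ∀ n ∈ N, m (n * b⁻¹) = n * b := by
    intro n hn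
    change ν (n * b⁻¹) * (n * b⁻¹)⁻¹ * ν (n * b⁻¹) = _
    rw [hν2 n hn]; group
  have hbb : ∀ n : G, n * b * b = n * b⁻¹ := fun n => by rw [mul_assoc, h2]
  have hbb' : ∀ n : G, n * b⁻¹ * b⁻¹ = n * b := fun n => by rw [mul_assoc, h3]
  refine ⟨ν, Function.Involutive.toPerm m hm2, hνN, hνb, hm2, ?_, ?_, ?_⟩
  · intro x hxN
    change m x ∉ N ∧ m x ≠ x
    rcases hx x hxN with h | h
    · rw [h, hμ1 _ (hνN x)]
      exact ⟨hnb' _ (hνN x), fun h' => h4 (mul_left_cancel h')⟩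
    · rw [h, hμ2 _ (hνN x)]
      exact ⟨hnb _ (hνN x), fun h' => h4 (mul_left_cancel h').symm⟩
  · intro n hn
    exact ⟨hnb n hn, hnb' n hn, hμ1 n hn, hμ2 n hn, hν1 n hn, hν2 n hn⟩
  · intro x hxN
    refine ⟨hx x hxN, ?_⟩
    change m x = _ ∨ m x = _
    rcases hx x hxN with h | h
    · left
      have := hμ1 _ (hνN x)
      rw [← h] at this
      rw [this]
      conv_rhs => rw [h]
      rw [hbb]
    · right
      have := hμ2 _ (hνN x)
      rw [← h] at this
      rw [this]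
      conv_rhs => rw [h]
      rw [hbb']

/-- `N` is a common transversal of the left cosets of `b₁` and `b₂`, and the permutation `σ` runs
through each left coset of `b₁` in the order `n e⁻¹, n, n e` with `n ∈ N`, and continues with a
step `b₂` or `b₂⁻¹`, and connects `m b₂` and `m b₂⁻¹` for `m ∈ N`. -/
structure TN {G : Type u} [Group G] (b₁ b₂ : G) (N : Set G) (σ : Equiv.Perm G) : Prop where
  t1 : ∀ x, ∃! n, n ∈ N ∧ x⁻¹ * n ∈ Subgroup.zpowers b₁
  t2 : ∀ x, ∃! n, n ∈ N ∧ x⁻¹ * n ∈ Subgroup.zpowers b₂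
  atN : ∀ n ∈ N, ∃ e, (e = b₁ ∨ e = b₁⁻¹) ∧ σ n = n * e ∧ σ (n * e⁻¹) = n ∧
    (σ (n * e) = n * e * b₂ ∨ σ (n * e) = n * e * b₂⁻¹)
  same : ∀ m ∈ N, σ.SameCycle (m * b₂) (m * b₂⁻¹)

theorem exists_TN {G : Type u} [Group G] [Finite G] {b₁ b₂ : G} (h1 : orderOf b₁ = 3)
    (h2 : orderOf b₂ = 3) : ∃ (N : Set G) (σ : Equiv.Perm G), TN b₁ b₂ N σ := by
  classical
  obtain ⟨N, hN1, hN2⟩ := exists_common_transversal (Subgroup.zpowers b₁) (Subgroup.zpowers b₂)
    (by rw [Nat.card_zpowers, Nat.card_zpowers, h1, h2])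
  obtain ⟨ν, μ, a1, a2, a3, a4, a5, a6⟩ := exists_flip h1 N hN1
  obtain ⟨ν', ι, c1, c2, c3, c4, c5, c6⟩ := exists_flip h2 N hN2
  obtain ⟨c, hc⟩ := dihedral_colouring μ ι a3 c3 {x | x ∉ N} (fun x hx => (a4 x hx).1)
    (fun x hx => (c4 x hx).1) (fun x hx => (a4 x hx).2) (fun x hx => (c4 x hx).2)
  let s : G → G := fun x => if x ∈ N then (if c (x * b₁) then x * b₁ else x * b₁⁻¹)
    else if c x then ι x else ν x
  let s' : G → G := fun x => if x ∈ N then (if c (x * b₁) then x * b₁⁻¹ else x * b₁)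
    else if c x then ν x else ι x
  have hflip : ∀ n ∈ N, c (n * b₁⁻¹) = !c (n * b₁) := by
    intro n hn
    rw [← (a5 n hn).2.2.1]
    exact (hc _ (a5 n hn).1).1
  have hinv : Function.LeftInverse s' s := by
    intro x
    by_cases hx : x ∈ N
    · obtain ⟨d1, d2, d3, d4, d5, d6⟩ := a5 x hx
      have hf := hflip x hx
      by_cases hcx : c (x * b₁) = true
      · have e1 : s x = x * b₁ := by simp only [s]; rw [if_pos hx, if_pos hcx]
        rw [e1]
        simp only [s']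
        rw [if_neg d1, if_pos hcx, d5]
      · have e1 : s x = x * b₁⁻¹ := by simp only [s]; rw [if_pos hx, if_neg hcx]
        rw [e1]
        simp only [s']
        rw [if_neg d2, if_pos (by rw [hf]; simp [hcx]), d6]
    · by_cases hcx : c x = true
      · have e1 : s x = ι x := by simp only [s]; rw [if_neg hx, if_pos hcx]
        rw [e1]
        simp only [s']
        rw [if_neg (c4 x hx).1, if_neg (by rw [(hc x hx).2, hcx]; simp), c3]
      · have e1 : s x = ν x := by simp only [s]; rw [if_neg hx, if_neg hcx]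
        rw [e1]
        simp only [s']
        rw [if_pos (a1 x)]
        rcases (a6 x hx).1 with h | h
        · rw [← h, if_neg hcx]
        · have hf := hflip (ν x) (a1 x)
          rw [← h] at hf ⊢
          rw [if_pos]
          cases h7 : c (ν x * b₁) with
          | true => rfl
          | false => rw [h7] at hf; exact absurd hf hcx
  have hbij : Function.Bijective s := Finite.injective_iff_bijective.1 hinv.injective
  let σ : Equiv.Perm G := Equiv.ofBijective s hbij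
  refine ⟨N, σ, hN1, hN2, ?_, ?_⟩
  · intro n hn
    obtain ⟨d1, d2, d3, d4, d5, d6⟩ := a5 n hn
    have hf := hflip n hn
    by_cases hcx : c (n * b₁) = true
    · refine ⟨b₁, Or.inl rfl, ?_, ?_, ?_⟩
      · change s n = _
        simp only [s]; rw [if_pos hn, if_pos hcx]
      · change s (n * b₁⁻¹) = _
        simp only [s]; rw [if_neg d2, if_neg (by rw [hf, hcx]; simp), d6]
      · change s (n * b₁) = _ ∨ s (n * b₁) = _
        simp only [s]; rw [if_neg d1, if_pos hcx]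
        exact (c6 _ d1).2
    · have hcx' : c (n * b₁⁻¹) = true := by rw [hf]; simp [hcx]
      refine ⟨b₁⁻¹, Or.inr rfl, ?_, ?_, ?_⟩
      · change s n = _
        simp only [s]; rw [if_pos hn, if_neg hcx]
      · rw [inv_inv]
        change s (n * b₁) = _
        simp only [s]; rw [if_neg d1, if_neg hcx, d5]
      · change s (n * b₁⁻¹) = _ ∨ s (n * b₁⁻¹) = _
        simp only [s]; rw [if_neg d2, if_pos hcx']
        exact (c6 _ d2).2
  · intro m hm
    obtain ⟨d1, d2, d3, d4, d5, d6⟩ := c5 m hm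
    have hf : c (m * b₂⁻¹) = !c (m * b₂) := by
      rw [← d3]
      exact (hc _ d1).2
    by_cases hcx : c (m * b₂) = true
    · have e1 : σ (m * b₂) = m * b₂⁻¹ := by
        change s _ = _
        simp only [s]; rw [if_neg d1, if_pos hcx, d3]
      rw [← e1]
      exact Equiv.Perm.sameCycle_apply_right.2 (Equiv.Perm.SameCycle.refl _ _)
    · have hcx' : c (m * b₂⁻¹) = true := by rw [hf]; simp [hcx]
      have e1 : σ (m * b₂⁻¹) = m * b₂ := by
        change s _ = _
        simp only [s]; rw [if_neg d2, if_pos hcx', d4]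
      rw [← e1]
      exact Equiv.Perm.sameCycle_apply_left.2 (Equiv.Perm.SameCycle.refl _ _)

end Pool.Agent.H151.TW
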